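import Pool.Agent.Lib_MP_752436_hg.Defs
import Pool.Agent.Lib_MP_752436_nb.Direction
import Pool.Agent.Lib_MP_752436_gt.Meas
import Pool.Agent.Lib_MP_752436_gt.Curv

/-!
A slice disc of hyperbolic mean curvature less than one bounds a ribbon knot: at a point of the
closed disc at which the vertical vector `e_3` is orthogonal to the surface the curvature is at least
`⟨t H + e_3, e_3⟩`, so `⟨H, e_3⟩ < 0`, and the height has a direction of negative second derivative.
-/

open Metric Set Filter
open scoped ContDiff Topology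

namespace Pool.Agent.Lib_MP_752436_hg

open Pool.Agent.Lib_MP_752436_gt Pool.Agent.Lib_MP_752436_tp Pool.Agent.Lib_MP_752436_rb
  Pool.Agent.Lib_MP_752436_nb

/-- The trace of a positive semidefinite form. -/
private theorem trace_nonneg {F : Plane → EuclideanSpace ℝ (Fin 4)} (hF : ContDiff ℝ ∞ F)
    {x : Plane} (hg : 0 < gdet F x) {v : EuclideanSpace ℝ (Fin 4)}
    (h : ∀ u, 0 ≤ (inner ℝ v (fderiv ℝ (fderiv ℝ F) x u u) : ℝ)) :
    0 ≤ (inner ℝ v (hvec F x) : ℝ) := by
  have h11 : 0 ≤ gm F 1 1 x := real_inner_self_nonneg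
  have h00 : 0 ≤ gm F 0 0 x := real_inner_self_nonneg
  have hgd : gdet F x = gm F 0 0 x * gm F 1 1 x - gm F 0 1 x ^ 2 := rfl
  have hpos : 0 < gm F 1 1 x := by
    rcases h11.eq_or_lt with h0 | h0
    · rw [hgd, ← h0] at hg
      nlinarith [sq_nonneg (gm F 0 1 x)]
    · exact h0
  have hq1 : 0 ≤ (inner ℝ v (d2 F 1 1 x) : ℝ) := h _
  have hs : d2 F 1 0 x = d2 F 0 1 x := d2_symm hF 1 0 x
  have hQ := h (gm F 1 1 x • EuclideanSpace.single 0 1 - gm F 0 1 x • EuclideanSpace.single 1 1)
  have hexp : fderiv ℝ (fderiv ℝ F) x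
      (gm F 1 1 x • EuclideanSpace.single 0 1 - gm F 0 1 x • EuclideanSpace.single 1 1)
      (gm F 1 1 x • EuclideanSpace.single 0 1 - gm F 0 1 x • EuclideanSpace.single 1 1) =
      (gm F 1 1 x ^ 2) • d2 F 0 0 x - (2 * (gm F 1 1 x * gm F 0 1 x)) • d2 F 0 1 x
        + (gm F 0 1 x ^ 2) • d2 F 1 1 x := by
    have e01 : fderiv ℝ (fderiv ℝ F) x (EuclideanSpace.single 1 1) (EuclideanSpace.single 0 1) =
        d2 F 0 1 x := hs
    have e00 : fderiv ℝ (fderiv ℝ F) x (EuclideanSpace.single 0 1) (EuclideanSpace.single 0 1) =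
        d2 F 0 0 x := rfl
    have e10 : fderiv ℝ (fderiv ℝ F) x (EuclideanSpace.single 0 1) (EuclideanSpace.single 1 1) =
        d2 F 0 1 x := rfl
    have e11 : fderiv ℝ (fderiv ℝ F) x (EuclideanSpace.single 1 1) (EuclideanSpace.single 1 1) =
        d2 F 1 1 x := rfl
    simp only [map_sub, map_smul, _root_.sub_apply, _root_.smul_apply, e01, e00, e10, e11]
    module
  rw [hexp, inner_add_right, inner_sub_right, real_inner_smul_right, real_inner_smul_right,
    real_inner_smul_right] at hQ
  unfold hvec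
  rw [real_inner_smul_right, inner_add_right, inner_sub_right, real_inner_smul_right,
    real_inner_smul_right, real_inner_smul_right]
  refine mul_nonneg (by positivity) ?_
  have key : 0 ≤ gm F 1 1 x * (gm F 1 1 x * inner ℝ v (d2 F 0 0 x) -
      2 * gm F 0 1 x * inner ℝ v (d2 F 0 1 x) + gm F 0 0 x * inner ℝ v (d2 F 1 1 x)) := by
    have h1 := mul_nonneg hg.le hq1
    rw [hgd] at h1
    nlinarith
  exact nonneg_of_mul_nonneg_right key hpos

/-- At the points at which the vertical vector is orthogonal to a surface of hyperbolic mean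
curvature less than one, the height has a direction of negative second derivative. -/
theorem exists_neg_of_hyp {F : Plane → EuclideanSpace ℝ (Fin 4)} (hF : IsSliceDisc F)
    (h : ∀ x ∈ closedBall (0 : Plane) 1, hypCurvature F x < 1) :
    ∀ x ∈ closedBall (0 : Plane) 1,
      (∀ u, (inner ℝ (EuclideanSpace.single 3 1 : EuclideanSpace ℝ (Fin 4))
        (fderiv ℝ F x u) : ℝ) = 0) →
        ∃ u, (inner ℝ (EuclideanSpace.single 3 1 : EuclideanSpace ℝ (Fin 4))
          (fderiv ℝ (fderiv ℝ F) x u u) : ℝ) < 0 := by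
  intro x hx hn
  by_contra hcon
  push Not at hcon
  have hg := gdet_pos (hF.immersion x hx)
  set e3 : EuclideanSpace ℝ (Fin 4) := EuclideanSpace.single 3 1 with he3
  set S := Submodule.span ℝ {d1 F 0 x, d1 F 1 x} with hS
  have hmem : e3 ∈ Sᗮ := by
    rw [Submodule.mem_orthogonal]
    intro u hu
    rw [hS, Submodule.mem_span_pair] at hu
    obtain ⟨a, b, rfl⟩ := hu
    have h0 : (inner ℝ e3 (d1 F 0 x) : ℝ) = 0 := hn _
    have h1 : (inner ℝ e3 (d1 F 1 x) : ℝ) = 0 := hn _
    rw [inner_add_left, real_inner_smul_left, real_inner_smul_left, real_inner_comm e3,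
      real_inner_comm e3, h0, h1]
    ring
  have hproj : Sᗮ.starProjection e3 = e3 := Submodule.starProjection_eq_self_iff.2 hmem
  have hnorm : ‖e3‖ = 1 := by simp [he3]
  have ht : 0 ≤ F x 3 := height_nonneg hF hx
  have h1 : 1 ≤ (inner ℝ (F x 3 • meanCurvature F x + Sᗮ.starProjection e3) e3 : ℝ) := by
    have h2 : (inner ℝ (meanCurv F x) e3 : ℝ) = inner ℝ e3 (hvec F x) := by
      have h3 : meanCurv F x = Sᗮ.starProjection (hvec F x) := rfl
      rw [h3, Submodule.inner_starProjection_left_eq_right, hproj, real_inner_comm]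
    rw [hproj, inner_add_left, real_inner_smul_left, meanCurvature_eq hF.smooth, h2,
      real_inner_self_eq_norm_sq, hnorm]
    have h4 := mul_nonneg ht (trace_nonneg hF.smooth hg hcon)
    linarith
  have h5 := h x hx
  have h6 : (inner ℝ (F x 3 • meanCurvature F x + Sᗮ.starProjection e3) e3 : ℝ) ≤
      hypCurvature F x := by
    refine (real_inner_le_norm _ _).trans ?_
    rw [hnorm, mul_one]
    exact le_rfl
  linarith

theorem isRibbonKnot_of_hyp {F : Plane → EuclideanSpace ℝ (Fin 4)} (hF : IsSliceDisc F)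
    (h : ∀ x ∈ closedBall (0 : Plane) 1, hypCurvature F x < 1) :
    IsRibbonKnot (boundaryKnot F) :=
  isRibbonKnot_of_direction hF (v := EuclideanSpace.single 3 1) (by simp)
    (exists_neg_of_hyp hF h)

end Pool.Agent.Lib_MP_752436_hg
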