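import Pool.Agent.Lib_MP_752436_hg.Cont

/-!
PIECE 3 (composition). With (G o t)_i = G' t_i and (G o t)_ij = G' t_ij + G'' t_i t_j the function bF
at e = 0 becomes G^2 |H_f|^2 + G G' L t + (G G'' - G'^2) |grad t|^2.
-/

open Metric Set Filter
open scoped ContDiff Topology

namespace Pool.Agent.Lib_MP_752436_hg

open Pool.Agent.Lib_MP_752436_gt Pool.Agent.Lib_MP_752436_tp Pool.Agent.Lib_MP_752436_rb
  Pool.Agent.Lib_MP_752436_nb

private theorem gramJ_zero (s t : ℝ) (a b : Space) : gramJ 0 s t a b = gramJ 0 0 0 a b := by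
  simp [gramJ]

private theorem trJ_zero {E : Type*} [AddCommGroup E] [Module ℝ E] (s t : ℝ) (a b : Space)
    (N00 N01 N11 : E) : trJ 0 s t a b N00 N01 N11 = trJ 0 0 0 a b N00 N01 N11 := by
  simp [trJ, gramJ]

private theorem qJ_zero (s t : ℝ) (a b : Space) (p q p' q' : ℝ) :
    qJ 0 s t a b p q p' q' = qJ 0 0 0 a b p q p' q' := by
  simp [qJ, gramJ]

private theorem fderiv_comp' {t : Plane → ℝ} {G : ℝ → ℝ} (ht : ContDiff ℝ ∞ t)
    (hG : ContDiff ℝ ∞ G) :
    fderiv ℝ (fun y => G (t y)) = fun y => deriv G (t y) • fderiv ℝ t y := by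
  funext y
  have h1 : HasDerivAt G (deriv G (t y)) (t y) :=
    ((hG.differentiable (by simp)) _).hasDerivAt
  have h2 : HasFDerivAt t (fderiv ℝ t y) y := ((ht.differentiable (by simp)) y).hasFDerivAt
  exact (h1.comp_hasFDerivAt y h2).fderiv

private theorem t1_comp {t : Plane → ℝ} {G : ℝ → ℝ} (ht : ContDiff ℝ ∞ t)
    (hG : ContDiff ℝ ∞ G) (i : Fin 2) (x : Plane) :
    t1 (fun y => G (t y)) i x = deriv G (t x) * t1 t i x := by
  unfold t1
  rw [fderiv_comp' ht hG]
  simp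

private theorem t2_comp {t : Plane → ℝ} {G : ℝ → ℝ} (ht : ContDiff ℝ ∞ t)
    (hG : ContDiff ℝ ∞ G) (i j : Fin 2) (x : Plane) :
    t2 (fun y => G (t y)) i j x =
      deriv G (t x) * t2 t i j x + deriv (deriv G) (t x) * (t1 t i x * t1 t j x) := by
  have hG' : ContDiff ℝ ∞ (deriv G) := by
    have h := (contDiff_infty_iff_deriv (𝕜 := ℝ)).1 hG
    exact h.2
  have ht' : ContDiff ℝ ∞ (fderiv ℝ t) := ht.fderiv_right (by simp)
  have h1 : HasFDerivAt (fun y => deriv G (t y)) (deriv (deriv G) (t x) • fderiv ℝ t x) x := by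
    have h2 : HasDerivAt (deriv G) (deriv (deriv G) (t x)) (t x) :=
      ((hG'.differentiable (by simp)) _).hasDerivAt
    exact h2.comp_hasFDerivAt x ((ht.differentiable (by simp)) x).hasFDerivAt
  have h3 : HasFDerivAt (fun y => deriv G (t y) • fderiv ℝ t y)
      (deriv G (t x) • fderiv ℝ (fderiv ℝ t) x +
        (deriv (deriv G) (t x) • fderiv ℝ t x).smulRight (fderiv ℝ t x)) x :=
    h1.smul ((ht'.differentiable (by simp)) x).hasFDerivAt
  unfold t2 t1
  rw [fderiv_comp' ht hG, h3.fderiv]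
  simp
  ring

theorem bF_comp {f : Plane → Space} {t : Plane → ℝ} {G : ℝ → ℝ} (ht : ContDiff ℝ ∞ t)
    (hG : ContDiff ℝ ∞ G) {x : Plane} (hi : Function.Injective (fderiv ℝ f x)) :
    bF f (fun y => G (t y)) 0 x = G (t x) ^ 2 * hF f x + G (t x) * deriv G (t x) * lF f t x +
      (G (t x) * deriv (deriv G) (t x) - deriv G (t x) ^ 2) * pF f t x := by
  unfold bF bJ hF lF pF nF
  simp only [t1_comp ht hG, t2_comp ht hG, qJ_zero _ _ (pd f 0 x), trJ_zero _ _ (pd f 0 x)]
  generalize trJ 0 0 0 (pd f 0 x) (pd f 1 x) (pd2 f 0 0 x) (pd2 f 0 1 x) (pd2 f 1 1 x) = V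
  unfold qJ trJ
  generalize gramJ 0 0 0 (pd f 0 x) (pd f 1 x) = D
  simp only [smul_eq_mul, mul_inv, div_eq_mul_inv]
  ring

private theorem num_eq (a b : Space) (p q : ℝ) :
    inner ℝ b b * (p * p) - inner ℝ a b * (p * q + q * p) + inner ℝ a a * (q * q) =
      ‖p • b - q • a‖ ^ 2 := by
  rw [← real_inner_self_eq_norm_sq, inner_sub_left, inner_sub_right, inner_sub_right]
  simp only [real_inner_smul_left, real_inner_smul_right]
  rw [real_inner_comm a b]
  ring

private theorem pF_eq (f : Plane → Space) (t : Plane → ℝ) (x : Plane) :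
    pF f t x = ‖t1 t 0 x • pd f 1 x - t1 t 1 x • pd f 0 x‖ ^ 2 /
      gramJ 0 0 0 (pd f 0 x) (pd f 1 x) := by
  unfold pF qJ
  rw [← num_eq]
  simp

theorem pF_nonneg {f : Plane → Space} (t : Plane → ℝ) {x : Plane}
    (hi : Function.Injective (fderiv ℝ f x)) : 0 ≤ pF f t x := by
  rw [pF_eq]
  exact div_nonneg (by positivity) (gramJ_pos hi 0 0 0).le

theorem pF_pos {f : Plane → Space} {t : Plane → ℝ} {x : Plane}
    (hi : Function.Injective (fderiv ℝ f x)) (h : fderiv ℝ t x ≠ 0) : 0 < pF f t x := by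
  rw [pF_eq]
  refine div_pos ?_ (gramJ_pos hi 0 0 0)
  have h0 : t1 t 0 x • pd f 1 x - t1 t 1 x • pd f 0 x ≠ 0 := by
    intro h1
    apply h
    have h2 : fderiv ℝ f x (t1 t 0 x • EuclideanSpace.single 1 1 -
        t1 t 1 x • EuclideanSpace.single 0 1) = 0 := by
      rw [map_sub, map_smul, map_smul]
      exact h1
    have h3 := (injective_iff_map_eq_zero (fderiv ℝ f x)).1 hi _ h2
    have h4 : t1 t 1 x = 0 := by
      have := congrArg (fun v : Plane => v 0) h3
      simpa using this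
    have h5 : t1 t 0 x = 0 := by
      have := congrArg (fun v : Plane => v 1) h3
      simpa using this
    ext v
    have h6 : v = v 0 • EuclideanSpace.single 0 1 + v 1 • (EuclideanSpace.single 1 1 : Plane) := by
      ext i
      fin_cases i <;> simp
    rw [h6, map_add, map_smul, map_smul]
    unfold t1 at h4 h5
    rw [h4, h5]
    simp
  positivity

theorem lF_of_crit {f : Plane → Space} {t : Plane → ℝ} {x : Plane} (h : fderiv ℝ t x = 0) :
    lF f t x = 2 * nF f t x := by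
  have h1 : ∀ i, t1 t i x = 0 := fun i => by simp [t1, h]
  unfold lF qJ
  rw [h1, h1]
  simp

private theorem hF_eq (f : Plane → Space) (x : Plane) :
    hF f x = bJ 0 1 0 0 0 0 0 (pd f 0 x) (pd f 1 x) (pd2 f 0 0 x) (pd2 f 0 1 x) (pd2 f 1 1 x) := by
  have h : trJ 0 0 0 (pd f 0 x) (pd f 1 x) (0 : ℝ) 0 0 = 0 := by simp [trJ]
  simp [hF, bJ, h]

private theorem pF_eq_bJ (f : Plane → Space) (t : Plane → ℝ) (x : Plane) :
    pF f t x = -bJ 0 0 (t1 t 0 x) (t1 t 1 x) 0 0 0 (pd f 0 x) (pd f 1 x) (pd2 f 0 0 x)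
      (pd2 f 0 1 x) (pd2 f 1 1 x) := by
  simp [pF, bJ, qJ_zero (t1 t 0 x) (t1 t 1 x)]

private theorem lF_eq_bJ (f : Plane → Space) (t : Plane → ℝ) (x : Plane) :
    lF f t x = bJ 0 1 (t1 t 0 x) (t1 t 1 x) (t2 t 0 0 x) (t2 t 0 1 x) (t2 t 1 1 x)
      (pd f 0 x) (pd f 1 x) (pd2 f 0 0 x) (pd2 f 0 1 x) (pd2 f 1 1 x) - hF f x + pF f t x := by
  unfold bJ hF lF pF nF
  simp only [qJ_zero _ _ (pd f 0 x), trJ_zero _ _ (pd f 0 x)]
  generalize trJ 0 0 0 (pd f 0 x) (pd f 1 x) (pd2 f 0 0 x) (pd2 f 0 1 x) (pd2 f 1 1 x) = V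
  unfold qJ trJ
  generalize gramJ 0 0 0 (pd f 0 x) (pd f 1 x) = D
  simp only [smul_eq_mul, mul_inv, div_eq_mul_inv]
  ring

private theorem continuous_pd {f : Plane → Space} (hf : ContDiff ℝ ∞ f) (i : Fin 2) :
    Continuous (pd f i) := by
  have h : ContDiff ℝ ∞ (fderiv ℝ f) := hf.fderiv_right (by simp)
  exact h.continuous.clm_apply continuous_const

theorem continuousOn_hF {f : Plane → Space} (hf : ContDiff ℝ ∞ f)
    (him : ∀ x ∈ closedBall (0 : Plane) 1, Function.Injective (fderiv ℝ f x)) :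
    ContinuousOn (hF f) (closedBall 0 1) := by
  intro x hx
  apply ContinuousAt.continuousWithinAt
  have h := continuousAt_bJ (X := Plane) (e := fun _ => 0) (T := fun _ => 1) (T0 := fun _ => 0)
    (T1 := fun _ => 0) (T00 := fun _ => 0) (T01 := fun _ => 0) (T11 := fun _ => 0)
    (f0 := pd f 0) (f1 := pd f 1) (f00 := pd2 f 0 0) (f01 := pd2 f 0 1) (f11 := pd2 f 1 1) (p := x)
    continuousAt_const continuousAt_const continuousAt_const continuousAt_const
    continuousAt_const continuousAt_const continuousAt_const (continuous_pd hf 0).continuousAt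
    (continuous_pd hf 1).continuousAt (continuous_pd2 hf 0 0).continuousAt
    (continuous_pd2 hf 0 1).continuousAt (continuous_pd2 hf 1 1).continuousAt
    (gramJ_pos (him x hx) 0 0 0).ne'
  have h2 : hF f = fun q => bJ 0 1 0 0 0 0 0 (pd f 0 q) (pd f 1 q) (pd2 f 0 0 q) (pd2 f 0 1 q)
      (pd2 f 1 1 q) := funext fun q => hF_eq f q
  rw [h2]
  exact h

theorem continuousOn_pF {f : Plane → Space} {t : Plane → ℝ} (hf : ContDiff ℝ ∞ f)
    (ht : ContDiff ℝ ∞ t)
    (him : ∀ x ∈ closedBall (0 : Plane) 1, Function.Injective (fderiv ℝ f x)) :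
    ContinuousOn (pF f t) (closedBall 0 1) := by
  intro x hx
  apply ContinuousAt.continuousWithinAt
  have h := continuousAt_bJ (X := Plane) (e := fun _ => 0) (T := fun _ => 0) (T0 := t1 t 0)
    (T1 := t1 t 1) (T00 := fun _ => 0) (T01 := fun _ => 0) (T11 := fun _ => 0)
    (f0 := pd f 0) (f1 := pd f 1) (f00 := pd2 f 0 0) (f01 := pd2 f 0 1) (f11 := pd2 f 1 1) (p := x)
    continuousAt_const continuousAt_const (continuous_t1 ht 0).continuousAt
    (continuous_t1 ht 1).continuousAt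
    continuousAt_const continuousAt_const continuousAt_const (continuous_pd hf 0).continuousAt
    (continuous_pd hf 1).continuousAt (continuous_pd2 hf 0 0).continuousAt
    (continuous_pd2 hf 0 1).continuousAt (continuous_pd2 hf 1 1).continuousAt
    (gramJ_pos (him x hx) 0 _ _).ne'
  have h2 : pF f t = fun q => -bJ 0 0 (t1 t 0 q) (t1 t 1 q) 0 0 0 (pd f 0 q) (pd f 1 q)
      (pd2 f 0 0 q) (pd2 f 0 1 q) (pd2 f 1 1 q) := funext fun q => pF_eq_bJ f t q
  rw [h2]
  exact h.neg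

theorem continuousOn_lF {f : Plane → Space} {t : Plane → ℝ} (hf : ContDiff ℝ ∞ f)
    (ht : ContDiff ℝ ∞ t)
    (him : ∀ x ∈ closedBall (0 : Plane) 1, Function.Injective (fderiv ℝ f x)) :
    ContinuousOn (lF f t) (closedBall 0 1) := by
  have h3 : ContinuousOn (fun q => bJ 0 1 (t1 t 0 q) (t1 t 1 q) (t2 t 0 0 q) (t2 t 0 1 q)
      (t2 t 1 1 q) (pd f 0 q) (pd f 1 q) (pd2 f 0 0 q) (pd2 f 0 1 q) (pd2 f 1 1 q))
      (closedBall 0 1) := by
    intro x hx
    apply ContinuousAt.continuousWithinAt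
    exact continuousAt_bJ (X := Plane) (e := fun _ => 0) (T := fun _ => 1) (T0 := t1 t 0)
      (T1 := t1 t 1) (T00 := t2 t 0 0) (T01 := t2 t 0 1) (T11 := t2 t 1 1)
      (f0 := pd f 0) (f1 := pd f 1) (f00 := pd2 f 0 0) (f01 := pd2 f 0 1) (f11 := pd2 f 1 1)
      (p := x)
      continuousAt_const continuousAt_const (continuous_t1 ht 0).continuousAt
      (continuous_t1 ht 1).continuousAt (continuous_t2 ht 0 0).continuousAt
      (continuous_t2 ht 0 1).continuousAt (continuous_t2 ht 1 1).continuousAt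
      (continuous_pd hf 0).continuousAt (continuous_pd hf 1).continuousAt
      (continuous_pd2 hf 0 0).continuousAt (continuous_pd2 hf 0 1).continuousAt
      (continuous_pd2 hf 1 1).continuousAt (gramJ_pos (him x hx) 0 _ _).ne'
  have h2 : lF f t = fun q => bJ 0 1 (t1 t 0 q) (t1 t 1 q) (t2 t 0 0 q) (t2 t 0 1 q)
      (t2 t 1 1 q) (pd f 0 q) (pd f 1 q) (pd2 f 0 0 q) (pd2 f 0 1 q) (pd2 f 1 1 q) - hF f q +
      pF f t q := funext fun q => lF_eq_bJ f t q
  rw [h2]
  exact (h3.sub (continuousOn_hF hf him)).add (continuousOn_pF hf ht him)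

end Pool.Agent.Lib_MP_752436_hg
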