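import Pool.Agent.Lib_MP_752436_hg.Defs
import Pool.Agent.Lib_MP_752436_gt.Meas

/-!
PIECE 2 (continuity). bJ is continuous where the Gram determinant is positive; uniform bounds for
small e on the closed disc (IsCompact.eventually_forall_of_forall_eventually).
-/

open Metric Set Filter
open scoped ContDiff Topology

namespace Pool.Agent.Lib_MP_752436_hg

open Pool.Agent.Lib_MP_752436_gt Pool.Agent.Lib_MP_752436_tp Pool.Agent.Lib_MP_752436_rb
  Pool.Agent.Lib_MP_752436_nb

/-- The Gram determinant of linearly independent vectors is positive. -/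
private theorem gram_aux {a b : Space} (h : ∀ r s : ℝ, r • a + s • b = 0 → r = 0 ∧ s = 0) :
    0 < (inner ℝ a a : ℝ) * inner ℝ b b - (inner ℝ a b) ^ 2 := by
  have hb : b ≠ 0 := by
    intro hb
    have := (h 0 1 (by rw [hb]; simp)).2
    exact one_ne_zero this
  have hbb : 0 < (inner ℝ b b : ℝ) := real_inner_self_pos.2 hb
  by_contra hcon
  rw [not_lt] at hcon
  have key : (inner ℝ ((inner ℝ b b : ℝ) • a - (inner ℝ a b : ℝ) • b)
      ((inner ℝ b b : ℝ) • a - (inner ℝ a b : ℝ) • b) : ℝ) =
      inner ℝ b b * ((inner ℝ a a : ℝ) * inner ℝ b b - (inner ℝ a b) ^ 2) := by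
    rw [inner_sub_left, inner_sub_right, inner_sub_right, real_inner_smul_left,
      real_inner_smul_left, real_inner_smul_right, real_inner_smul_right, real_inner_smul_left,
      real_inner_smul_left, real_inner_smul_right, real_inner_smul_right, real_inner_comm a b]
    ring
  have h0 : (inner ℝ b b : ℝ) • a - (inner ℝ a b : ℝ) • b = 0 := by
    apply inner_self_eq_zero (𝕜 := ℝ).1
    apply le_antisymm _ real_inner_self_nonneg
    rw [key]
    exact mul_nonpos_of_nonneg_of_nonpos hbb.le hcon
  have h1 := (h (inner ℝ b b) (-(inner ℝ a b)) (by rw [neg_smul, ← sub_eq_add_neg]; exact h0)).1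
  exact hbb.ne' h1

theorem gramJ_pos {f : Plane → Space} {x : Plane} (hi : Function.Injective (fderiv ℝ f x))
    (e s t : ℝ) : 0 < gramJ e s t (pd f 0 x) (pd f 1 x) := by
  have h := gram_aux (a := pd f 0 x) (b := pd f 1 x) (by
    intro r q hrq
    have h1 : fderiv ℝ f x (r • EuclideanSpace.single 0 1 + q • EuclideanSpace.single 1 1) = 0 := by
      rw [map_add, map_smul, map_smul]
      exact hrq
    have h2 := hi (h1.trans (map_zero _).symm)
    constructor
    · have := congrArg (fun z : Plane => z 0) h2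
      simpa using this
    · have := congrArg (fun z : Plane => z 1) h2
      simpa using this)
  unfold gramJ
  set a := pd f 0 x
  set b := pd f 1 x
  have h3 : (0 : ℝ) ≤ inner ℝ (t • a - s • b) (t • a - s • b) := real_inner_self_nonneg
  rw [inner_sub_left, inner_sub_right, inner_sub_right, real_inner_smul_left,
      real_inner_smul_left, real_inner_smul_right, real_inner_smul_right, real_inner_smul_left,
      real_inner_smul_left, real_inner_smul_right, real_inner_smul_right, real_inner_comm a b] at h3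
  nlinarith [mul_nonneg (sq_nonneg e) h3]

/-- Continuity of `gramJ`. -/
theorem continuousAt_gramJ {X : Type*} [TopologicalSpace X] {e s t : X → ℝ} {a b : X → Space}
    {p : X} (he : ContinuousAt e p) (hs : ContinuousAt s p) (ht : ContinuousAt t p)
    (ha : ContinuousAt a p) (hb : ContinuousAt b p) :
    ContinuousAt (fun q => gramJ (e q) (s q) (t q) (a q) (b q)) p := by
  unfold gramJ
  exact (((ha.inner ha).add ((he.pow 2).mul (hs.pow 2))).mul
    ((hb.inner hb).add ((he.pow 2).mul (ht.pow 2)))).sub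
    (((ha.inner hb).add (((he.pow 2).mul hs).mul ht)).pow 2)

/-- Continuity of `trJ`. -/
theorem continuousAt_trJ {X E : Type*} [TopologicalSpace X] [NormedAddCommGroup E]
    [NormedSpace ℝ E] {e s t : X → ℝ} {a b : X → Space} {N00 N01 N11 : X → E}
    {p : X} (he : ContinuousAt e p) (hs : ContinuousAt s p) (ht : ContinuousAt t p)
    (ha : ContinuousAt a p) (hb : ContinuousAt b p) (h00 : ContinuousAt N00 p)
    (h01 : ContinuousAt N01 p) (h11 : ContinuousAt N11 p)
    (hD : gramJ (e p) (s p) (t p) (a p) (b p) ≠ 0) :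
    ContinuousAt (fun q => trJ (e q) (s q) (t q) (a q) (b q) (N00 q) (N01 q) (N11 q)) p := by
  unfold trJ
  have h1 := continuousAt_gramJ he hs ht ha hb
  refine ContinuousAt.smul ?_ ?_
  · exact (continuousAt_const.mul h1).inv₀ (mul_ne_zero two_ne_zero hD)
  · exact ((((hb.inner hb).add ((he.pow 2).mul (ht.pow 2))).smul h00).sub
      ((continuousAt_const.mul ((ha.inner hb).add (((he.pow 2).mul hs).mul ht))).smul h01)).add
      (((ha.inner ha).add ((he.pow 2).mul (hs.pow 2))).smul h11)

/-- Continuity of `qJ`. -/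
theorem continuousAt_qJ {X : Type*} [TopologicalSpace X] {e s t : X → ℝ} {a b : X → Space}
    {u v u' v' : X → ℝ}
    {p : X} (he : ContinuousAt e p) (hs : ContinuousAt s p) (ht : ContinuousAt t p)
    (ha : ContinuousAt a p) (hb : ContinuousAt b p) (hu : ContinuousAt u p)
    (hv : ContinuousAt v p) (hu' : ContinuousAt u' p) (hv' : ContinuousAt v' p)
    (hD : gramJ (e p) (s p) (t p) (a p) (b p) ≠ 0) :
    ContinuousAt (fun q => qJ (e q) (s q) (t q) (a q) (b q) (u q) (v q) (u' q) (v' q)) p := by
  unfold qJ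
  refine ContinuousAt.div ?_ (continuousAt_gramJ he hs ht ha hb) hD
  exact ((((hb.inner hb).add ((he.pow 2).mul (ht.pow 2))).mul (hu.mul hu')).sub
      (((ha.inner hb).add (((he.pow 2).mul hs).mul ht)).mul ((hu.mul hv').add (hv.mul hu')))).add
      (((ha.inner ha).add ((he.pow 2).mul (hs.pow 2))).mul (hv.mul hv'))

/-- Continuity of `bJ` in all its arguments. -/
theorem continuousAt_bJ {X : Type*} [TopologicalSpace X] {e T T0 T1 T00 T01 T11 : X → ℝ}
    {f0 f1 f00 f01 f11 : X → Space} {p : X} (he : ContinuousAt e p) (hT : ContinuousAt T p)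
    (hT0 : ContinuousAt T0 p) (hT1 : ContinuousAt T1 p) (hT00 : ContinuousAt T00 p)
    (hT01 : ContinuousAt T01 p) (hT11 : ContinuousAt T11 p) (hf0 : ContinuousAt f0 p)
    (hf1 : ContinuousAt f1 p) (hf00 : ContinuousAt f00 p) (hf01 : ContinuousAt f01 p)
    (hf11 : ContinuousAt f11 p) (hD : gramJ (e p) (T0 p) (T1 p) (f0 p) (f1 p) ≠ 0) :
    ContinuousAt (fun q => bJ (e q) (T q) (T0 q) (T1 q) (T00 q) (T01 q) (T11 q) (f0 q) (f1 q)
      (f00 q) (f01 q) (f11 q)) p := by
  unfold bJ
  have hV := continuousAt_trJ he hT0 hT1 hf0 hf1 hf00 hf01 hf11 hD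
  have hv := continuousAt_trJ he hT0 hT1 hf0 hf1 hT00 hT01 hT11 hD
  have hc : ContinuousAt (fun q => 1 + e q ^ 2 * T q *
      trJ (e q) (T0 q) (T1 q) (f0 q) (f1 q) (T00 q) (T01 q) (T11 q)) p :=
    continuousAt_const.add (((he.pow 2).mul hT).mul hv)
  have ha0 := (hT.mul (hV.inner hf0)).add (hT0.mul hc)
  have ha1 := (hT.mul (hV.inner hf1)).add (hT1.mul hc)
  exact ((((hT.pow 2).mul (hV.inner hV)).add ((continuousAt_const.mul hT).mul hv)).add
    (((he.pow 2).mul (hT.pow 2)).mul (hv.pow 2))).sub
    (continuousAt_qJ he hT0 hT1 hf0 hf1 ha0 ha1 ha0 ha1 hD)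

theorem continuous_pd2 {f : Plane → Space} (hf : ContDiff ℝ ∞ f) (i j : Fin 2) :
    Continuous (pd2 f i j) := by
  unfold pd2
  have h1 : ContDiff ℝ ∞ (fderiv ℝ f) := hf.fderiv_right (by simp)
  exact ((h1.continuous_fderiv (by simp)).clm_apply continuous_const).clm_apply continuous_const

theorem continuous_pd' {f : Plane → Space} (hf : ContDiff ℝ ∞ f) (i : Fin 2) :
    Continuous (pd f i) := by
  unfold pd
  exact (hf.continuous_fderiv (by simp)).clm_apply continuous_const

theorem continuous_t1 {t : Plane → ℝ} (ht : ContDiff ℝ ∞ t) (i : Fin 2) :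
    Continuous (t1 t i) := by
  unfold t1
  exact (ht.continuous_fderiv (by simp)).clm_apply continuous_const

theorem continuous_t2 {t : Plane → ℝ} (ht : ContDiff ℝ ∞ t) (i j : Fin 2) :
    Continuous (t2 t i j) := by
  unfold t2
  have h1 : ContDiff ℝ ∞ (fderiv ℝ t) := ht.fderiv_right (by simp)
  exact ((h1.continuous_fderiv (by simp)).clm_apply continuous_const).clm_apply continuous_const

/-- Joint continuity of `bF`. -/
theorem continuousAt_bF {f : Plane → Space} {T : Plane → ℝ} (hf : ContDiff ℝ ∞ f)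
    (hT : ContDiff ℝ ∞ T) (e : ℝ) {x : Plane} (hi : Function.Injective (fderiv ℝ f x)) :
    ContinuousAt (fun p : ℝ × Plane => bF f T p.1 p.2) (e, x) := by
  unfold bF
  exact continuousAt_bJ continuousAt_fst
    (hT.continuous.comp continuous_snd).continuousAt
    ((continuous_t1 hT 0).comp continuous_snd).continuousAt
    ((continuous_t1 hT 1).comp continuous_snd).continuousAt
    ((continuous_t2 hT 0 0).comp continuous_snd).continuousAt
    ((continuous_t2 hT 0 1).comp continuous_snd).continuousAt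
    ((continuous_t2 hT 1 1).comp continuous_snd).continuousAt
    ((continuous_pd' hf 0).comp continuous_snd).continuousAt
    ((continuous_pd' hf 1).comp continuous_snd).continuousAt
    ((continuous_pd2 hf 0 0).comp continuous_snd).continuousAt
    ((continuous_pd2 hf 0 1).comp continuous_snd).continuousAt
    ((continuous_pd2 hf 1 1).comp continuous_snd).continuousAt
    (gramJ_pos hi _ _ _).ne'

theorem exists_small_lt {f : Plane → Space} {T : Plane → ℝ} (hf : ContDiff ℝ ∞ f)
    (hT : ContDiff ℝ ∞ T)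
    (him : ∀ x ∈ closedBall (0 : Plane) 1, Function.Injective (fderiv ℝ f x)) {c : ℝ}
    (h0 : ∀ x ∈ closedBall (0 : Plane) 1, bF f T 0 x < c) :
    ∃ ε₀ > 0, ∀ e, 0 < e → e ≤ ε₀ → ∀ x ∈ closedBall (0 : Plane) 1, bF f T e x < c := by
  have h1 : ∀ᶠ e in 𝓝 (0 : ℝ), ∀ x ∈ closedBall (0 : Plane) 1, bF f T e x < c := by
    refine (isCompact_closedBall (0 : Plane) 1).eventually_forall_of_forall_eventually ?_
    intro x hx
    exact (continuousAt_bF hf hT 0 (him x hx)).eventually_lt continuousAt_const (h0 x hx)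
  obtain ⟨δ, hδ, hδ'⟩ := Metric.eventually_nhds_iff.1 h1
  refine ⟨δ / 2, half_pos hδ, fun e he he' x hx => hδ' ?_ x hx⟩
  rw [Real.dist_eq, sub_zero, abs_of_pos he]
  linarith

theorem exists_bound {f : Plane → Space} {T : Plane → ℝ} (hf : ContDiff ℝ ∞ f)
    (hT : ContDiff ℝ ∞ T)
    (him : ∀ x ∈ closedBall (0 : Plane) 1, Function.Injective (fderiv ℝ f x)) :
    ∃ c, 0 < c ∧ ∀ x ∈ closedBall (0 : Plane) 1, bF f T 0 x < c := by
  have h1 : ContinuousOn (bF f T 0) (closedBall (0 : Plane) 1) := by
    intro x hx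
    have h2 := continuousAt_bF hf hT 0 (him x hx)
    have h3 : ContinuousAt (fun y : Plane => ((0 : ℝ), y)) x := by fun_prop
    exact (ContinuousAt.comp (g := fun p : ℝ × Plane => bF f T p.1 p.2) h2 h3).continuousWithinAt
  obtain ⟨c, hc⟩ := (isCompact_closedBall (0 : Plane) 1).bddAbove_image h1
  refine ⟨max c 0 + 1, by positivity, fun x hx => ?_⟩
  have h2 := hc (mem_image_of_mem _ hx)
  have h3 := le_max_left c 0
  linarith

end Pool.Agent.Lib_MP_752436_hg
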