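import Pool.Agent.Lib_MP_752436_nb.RibbonIff
import Pool.Agent.Lib_MP_752436_nb.Transport

/-!
The mean curvature of a disc in the upper half space model of hyperbolic space, and working forms.
-/

open Metric Set Filter
open scoped ContDiff Topology

namespace Pool.Agent.Lib_MP_752436_hg

open Pool.Agent.Lib_MP_752436_gt Pool.Agent.Lib_MP_752436_tp Pool.Agent.Lib_MP_752436_rb
  Pool.Agent.Lib_MP_752436_nb

/-- The (length of the) mean curvature vector of the surface parametrised by `F` with respect to the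
hyperbolic metric `|dp|^2 / (p 3)^2` of the upper half space `0 < p 3`: the length of
`t H + e_3^⊥`, where `t = F x 3`, `H` is the mean curvature vector (half trace) with respect to the
metric of `R^4` and `e_3^⊥` is the component of the vertical unit vector orthogonal to the surface.
On the boundary `t = 0` it is the length of `e_3^⊥`. -/
noncomputable def hypCurvature (F : EuclideanSpace ℝ (Fin 2) → EuclideanSpace ℝ (Fin 4))
    (x : EuclideanSpace ℝ (Fin 2)) : ℝ :=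
  ‖F x 3 • meanCurvature F x +
    ((Submodule.span ℝ {d1 F 0 x, d1 F 1 x})ᗮ).starProjection (EuclideanSpace.single 3 1)‖

/-- Second partial derivatives of a map to `R^3`. -/
noncomputable def pd2 (f : Plane → Space) (i j : Fin 2) (x : Plane) : Space :=
  fderiv ℝ (fderiv ℝ f) x (EuclideanSpace.single i 1) (EuclideanSpace.single j 1)

/-- Partial derivatives of a real function. -/
noncomputable def t1 (T : Plane → ℝ) (i : Fin 2) (x : Plane) : ℝ :=
  fderiv ℝ T x (EuclideanSpace.single i 1)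

/-- Second partial derivatives of a real function. -/
noncomputable def t2 (T : Plane → ℝ) (i j : Fin 2) (x : Plane) : ℝ :=
  fderiv ℝ (fderiv ℝ T) x (EuclideanSpace.single i 1) (EuclideanSpace.single j 1)

/-- The Gram determinant of the vectors `(a, e s)`, `(b, e t)`. -/
noncomputable def gramJ (e s t : ℝ) (a b : Space) : ℝ :=
  (inner ℝ a a + e ^ 2 * s ^ 2) * (inner ℝ b b + e ^ 2 * t ^ 2) - (inner ℝ a b + e ^ 2 * s * t) ^ 2

/-- `(2 det g)⁻¹ (g11 N00 - 2 g01 N01 + g00 N11)` for the metric of the vectors `(a, e s)`,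
`(b, e t)`. -/
noncomputable def trJ {E : Type*} [AddCommGroup E] [Module ℝ E] (e s t : ℝ) (a b : Space)
    (N00 N01 N11 : E) : E :=
  (2 * gramJ e s t a b)⁻¹ • ((inner ℝ b b + e ^ 2 * t ^ 2) • N00
    - (2 * (inner ℝ a b + e ^ 2 * s * t)) • N01 + (inner ℝ a a + e ^ 2 * s ^ 2) • N11)

/-- The inverse metric, applied to `(p, q)` and `(p', q')`. -/
noncomputable def qJ (e s t : ℝ) (a b : Space) (p q p' q' : ℝ) : ℝ :=
  ((inner ℝ b b + e ^ 2 * t ^ 2) * (p * p') - (inner ℝ a b + e ^ 2 * s * t) * (p * q' + q * p')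
    + (inner ℝ a a + e ^ 2 * s ^ 2) * (q * q')) / gramJ e s t a b

/-- The function `B` with `hypCurvature ^ 2 = 1 + e ^ 2 * B` for the surface `(f, e T)`; here
`T0, T1, T00, T01, T11` are the derivatives of `T` and `f0, f1, f00, f01, f11` those of `f`. -/
noncomputable def bJ (e T T0 T1 T00 T01 T11 : ℝ) (f0 f1 f00 f01 f11 : Space) : ℝ :=
  let V := trJ e T0 T1 f0 f1 f00 f01 f11
  let v := trJ e T0 T1 f0 f1 T00 T01 T11
  let a0 := T * inner ℝ V f0 + T0 * (1 + e ^ 2 * T * v)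
  let a1 := T * inner ℝ V f1 + T1 * (1 + e ^ 2 * T * v)
  T ^ 2 * inner ℝ V V + 2 * T * v + e ^ 2 * T ^ 2 * v ^ 2 - qJ e T0 T1 f0 f1 a0 a1 a0 a1

/-- `bJ` for the functions `f` and `T` at `x`. -/
noncomputable def bF (f : Plane → Space) (T : Plane → ℝ) (e : ℝ) (x : Plane) : ℝ :=
  bJ e (T x) (t1 T 0 x) (t1 T 1 x) (t2 T 0 0 x) (t2 T 0 1 x) (t2 T 1 1 x)
    (pd f 0 x) (pd f 1 x) (pd2 f 0 0 x) (pd2 f 0 1 x) (pd2 f 1 1 x)

/-- Half the Laplace-Beltrami operator of the metric induced by `f`, at the critical points of `t`: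
`(2 det g)⁻¹ (g11 t00 - 2 g01 t01 + g00 t11)`. -/
noncomputable def nF (f : Plane → Space) (t : Plane → ℝ) (x : Plane) : ℝ :=
  trJ 0 0 0 (pd f 0 x) (pd f 1 x) (t2 t 0 0 x) (t2 t 0 1 x) (t2 t 1 1 x)

/-- The squared length of the mean curvature vector of `f`. -/
noncomputable def hF (f : Plane → Space) (x : Plane) : ℝ :=
  inner ℝ (trJ 0 0 0 (pd f 0 x) (pd f 1 x) (pd2 f 0 0 x) (pd2 f 0 1 x) (pd2 f 1 1 x))
      (trJ 0 0 0 (pd f 0 x) (pd f 1 x) (pd2 f 0 0 x) (pd2 f 0 1 x) (pd2 f 1 1 x)) -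
    qJ 0 0 0 (pd f 0 x) (pd f 1 x)
      (inner ℝ (trJ 0 0 0 (pd f 0 x) (pd f 1 x) (pd2 f 0 0 x) (pd2 f 0 1 x) (pd2 f 1 1 x)) (pd f 0 x))
      (inner ℝ (trJ 0 0 0 (pd f 0 x) (pd f 1 x) (pd2 f 0 0 x) (pd2 f 0 1 x) (pd2 f 1 1 x)) (pd f 1 x))
      (inner ℝ (trJ 0 0 0 (pd f 0 x) (pd f 1 x) (pd2 f 0 0 x) (pd2 f 0 1 x) (pd2 f 1 1 x)) (pd f 0 x))
      (inner ℝ (trJ 0 0 0 (pd f 0 x) (pd f 1 x) (pd2 f 0 0 x) (pd2 f 0 1 x) (pd2 f 1 1 x)) (pd f 1 x))

/-- The squared length of the gradient of `t` for the metric induced by `f`. -/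
noncomputable def pF (f : Plane → Space) (t : Plane → ℝ) (x : Plane) : ℝ :=
  qJ 0 0 0 (pd f 0 x) (pd f 1 x) (t1 t 0 x) (t1 t 1 x) (t1 t 0 x) (t1 t 1 x)

/-- The Laplace-Beltrami operator of the metric induced by `f`, applied to `t`. -/
noncomputable def lF (f : Plane → Space) (t : Plane → ℝ) (x : Plane) : ℝ :=
  2 * (nF f t x - qJ 0 0 0 (pd f 0 x) (pd f 1 x)
      (inner ℝ (trJ 0 0 0 (pd f 0 x) (pd f 1 x) (pd2 f 0 0 x) (pd2 f 0 1 x) (pd2 f 1 1 x)) (pd f 0 x))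
      (inner ℝ (trJ 0 0 0 (pd f 0 x) (pd f 1 x) (pd2 f 0 0 x) (pd2 f 0 1 x) (pd2 f 1 1 x)) (pd f 1 x))
      (t1 t 0 x) (t1 t 1 x))

end Pool.Agent.Lib_MP_752436_hg
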