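import Pool.Agent.Lib_MP_752436_hg.Defs

/-!
PIECE 1 (formula). The square of the hyperbolic mean curvature of the surface (f, e T).

Let F = lift4 f (e T). d1 F i x = (f_i, e T_i), d2 F i j x = (f_ij, e T_ij), so gm F i j, gdet F are the
entries and the value of gramJ, and hvec F x = (V, e v) with V = trJ .. f00 f01 f11 and
v = trJ .. T00 T01 T11. By linearity of the projection hypCurvature F x is the length of the normal
part of W = F x 3 • hvec F x + e_3 = (e T V, 1 + e^2 T v). The normal part w of W has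
|w|^2 = |W|^2 - (g11 <W,F0>^2 - 2 g01 <W,F0><W,F1> + g00 <W,F1>^2) / gdet (cf. meanCurv_eq in gt/Meas),
and <W,F_i> = e a_i.
-/

open Metric Set Filter
open scoped ContDiff Topology

namespace Pool.Agent.Lib_MP_752436_hg

open Pool.Agent.Lib_MP_752436_gt Pool.Agent.Lib_MP_752436_tp Pool.Agent.Lib_MP_752436_rb
  Pool.Agent.Lib_MP_752436_nb

/-- The normal part of a vector. -/
private theorem fm_proj (u w W : EuclideanSpace ℝ (Fin 4))
    (hD : 0 < inner ℝ u u * inner ℝ w w - (inner ℝ u w : ℝ) ^ 2) :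
    ‖((Submodule.span ℝ {u, w})ᗮ).starProjection W‖ ^ 2 = inner ℝ W W -
      (inner ℝ w w * inner ℝ W u ^ 2 - 2 * inner ℝ u w * (inner ℝ W u * inner ℝ W w) +
        inner ℝ u u * inner ℝ W w ^ 2) / (inner ℝ u u * inner ℝ w w - (inner ℝ u w : ℝ) ^ 2) := by
  set D : ℝ := inner ℝ u u * inner ℝ w w - (inner ℝ u w : ℝ) ^ 2 with hDdef
  have hne := hD.ne'
  have e10 : (inner ℝ w u : ℝ) = inner ℝ u w := real_inner_comm _ _
  have c0 : (inner ℝ u W : ℝ) = inner ℝ W u := real_inner_comm _ _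
  have c1 : (inner ℝ w W : ℝ) = inner ℝ W w := real_inner_comm _ _
  have h1 : ((Submodule.span ℝ {u, w})ᗮ).starProjection W = W
      - ((inner ℝ w w * inner ℝ W u - inner ℝ u w * inner ℝ W w) / D) • u
      - ((inner ℝ u u * inner ℝ W w - inner ℝ u w * inner ℝ W u) / D) • w := by
    apply Submodule.eq_starProjection_of_mem_orthogonal
    · rw [Submodule.mem_orthogonal]
      intro z hz
      rw [Submodule.mem_span_pair] at hz
      obtain ⟨a, b, rfl⟩ := hz
      simp only [inner_add_left, inner_sub_right, real_inner_smul_left, real_inner_smul_right,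
        e10, c0, c1]
      field_simp
      rw [hDdef]
      ring
    · apply Submodule.le_orthogonal_orthogonal
      rw [sub_sub, sub_sub_cancel]
      exact Submodule.mem_span_pair.2 ⟨_, _, rfl⟩
  rw [h1, ← real_inner_self_eq_norm_sq]
  simp only [inner_sub_left, inner_sub_right, real_inner_smul_left, real_inner_smul_right,
    e10, c0, c1]
  field_simp
  rw [hDdef]
  ring

private theorem fm_coord {n : ℕ} {G : Plane → EuclideanSpace ℝ (Fin n)} (hG : ContDiff ℝ ∞ G)
    (i : Fin n) (x u : Plane) : (fderiv ℝ G x u) i = fderiv ℝ (fun y => G y i) x u := by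
  have h1 : HasFDerivAt (fun y => G y i)
      ((EuclideanSpace.proj i : EuclideanSpace ℝ (Fin n) →L[ℝ] ℝ).comp (fderiv ℝ G x)) x :=
    (EuclideanSpace.proj i : EuclideanSpace ℝ (Fin n) →L[ℝ] ℝ).hasFDerivAt.comp x
      ((hG.differentiable (by simp)) x).hasFDerivAt
  rw [h1.fderiv]
  rfl

private theorem fm_coord2 {n : ℕ} {G : Plane → EuclideanSpace ℝ (Fin n)} (hG : ContDiff ℝ ∞ G)
    (i : Fin n) (x u w : Plane) :
    (fderiv ℝ (fderiv ℝ G) x u w) i = fderiv ℝ (fderiv ℝ (fun y => G y i)) x u w := by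
  have hGi : ContDiff ℝ ∞ (fun y => G y i) := contDiff_euclidean.1 hG i
  rw [← fderiv_fderiv_apply hG x u w, ← fderiv_fderiv_apply hGi x u w]
  have h1 : ContDiff ℝ ∞ (fun y => fderiv ℝ G y w) :=
    (hG.fderiv_right (m := ∞) (by simp)).clm_apply contDiff_const
  rw [fm_coord h1]
  congr 2
  funext y
  exact fm_coord hG i y w

private theorem fm_smul {T : Plane → ℝ} (hT : ContDiff ℝ ∞ T) (e : ℝ) (x u : Plane) :
    fderiv ℝ (fun y => e * T y) x u = e * fderiv ℝ T x u := by
  have h1 := (((hT.differentiable (by simp)) x).hasFDerivAt.const_mul e).fderiv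
  rw [h1]
  rfl

private theorem fm_smul2 {T : Plane → ℝ} (hT : ContDiff ℝ ∞ T) (e : ℝ) (x u w : Plane) :
    fderiv ℝ (fderiv ℝ (fun y => e * T y)) x u w = e * fderiv ℝ (fderiv ℝ T) x u w := by
  have hT' : ContDiff ℝ ∞ (fun y => e * T y) := contDiff_const.mul hT
  rw [← fderiv_fderiv_apply hT x u w, ← fderiv_fderiv_apply hT' x u w]
  have h1 : ContDiff ℝ ∞ (fun y => fderiv ℝ T y w) :=
    (hT.fderiv_right (m := ∞) (by simp)).clm_apply contDiff_const
  rw [← fm_smul h1]
  congr 2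
  funext y
  exact fm_smul hT e y w

/-- The vector with components `a`, `c`. -/
private noncomputable def fm_pair (a : Space) (c : ℝ) : EuclideanSpace ℝ (Fin 4) :=
  !₂[a 0, a 1, a 2, c]

private theorem fm_inner (a b : Space) (c d : ℝ) :
    (inner ℝ (fm_pair a c) (fm_pair b d) : ℝ) = inner ℝ a b + c * d := by
  simp only [fm_pair, PiLp.inner_apply, Fin.sum_univ_four, Fin.sum_univ_three]
  simp
  ring

private theorem fm_add (a b : Space) (c d : ℝ) :
    fm_pair a c + fm_pair b d = fm_pair (a + b) (c + d) := by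
  ext i
  fin_cases i <;> simp [fm_pair]

private theorem fm_sub (a b : Space) (c d : ℝ) :
    fm_pair a c - fm_pair b d = fm_pair (a - b) (c - d) := by
  ext i
  fin_cases i <;> simp [fm_pair]

private theorem fm_sc (r : ℝ) (a : Space) (c : ℝ) :
    r • fm_pair a c = fm_pair (r • a) (r * c) := by
  ext i
  fin_cases i <;> simp [fm_pair]

theorem hypCurvature_sq {f : Plane → Space} {T : Plane → ℝ} (hf : ContDiff ℝ ∞ f)
    (hT : ContDiff ℝ ∞ T) (e : ℝ) {x : Plane}
    (hD : 0 < gramJ e (t1 T 0 x) (t1 T 1 x) (pd f 0 x) (pd f 1 x)) :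
    hypCurvature (lift4 f (fun y => e * T y)) x ^ 2 = 1 + e ^ 2 * bF f T e x := by
  have hF : ContDiff ℝ ∞ (lift4 f (fun y => e * T y)) := by
    have hc := contDiff_euclidean.1 hf
    refine contDiff_euclidean.2 (fun i => ?_)
    fin_cases i
    · exact hc 0
    · exact hc 1
    · exact hc 2
    · exact contDiff_const.mul hT
  set F := lift4 f (fun y => e * T y) with hFdef
  have hd1 : ∀ i, d1 F i x = fm_pair (pd f i x) (e * t1 T i x) := by
    intro i
    ext j
    unfold d1
    rw [fm_coord hF]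
    fin_cases j
    · show fderiv ℝ (fun y => f y 0) x _ = (pd f i x) 0
      unfold pd
      rw [fm_coord hf]
    · show fderiv ℝ (fun y => f y 1) x _ = (pd f i x) 1
      unfold pd
      rw [fm_coord hf]
    · show fderiv ℝ (fun y => f y 2) x _ = (pd f i x) 2
      unfold pd
      rw [fm_coord hf]
    · show fderiv ℝ (fun y => e * T y) x _ = e * t1 T i x
      exact fm_smul hT e x _
  have hd2 : ∀ i j, d2 F i j x = fm_pair (pd2 f i j x) (e * t2 T i j x) := by
    intro i j
    ext k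
    unfold d2
    rw [fm_coord2 hF]
    fin_cases k
    · show fderiv ℝ (fderiv ℝ (fun y => f y 0)) x _ _ = (pd2 f i j x) 0
      unfold pd2
      rw [fm_coord2 hf]
    · show fderiv ℝ (fderiv ℝ (fun y => f y 1)) x _ _ = (pd2 f i j x) 1
      unfold pd2
      rw [fm_coord2 hf]
    · show fderiv ℝ (fderiv ℝ (fun y => f y 2)) x _ _ = (pd2 f i j x) 2
      unfold pd2
      rw [fm_coord2 hf]
    · show fderiv ℝ (fderiv ℝ (fun y => e * T y)) x _ _ = e * t2 T i j x
      exact fm_smul2 hT e x _ _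
  have hx3 : F x 3 = e * T x := by simp [hFdef, lift4]
  have hsing : (EuclideanSpace.single 3 1 : EuclideanSpace ℝ (Fin 4)) = fm_pair 0 1 := by
    ext i
    fin_cases i <;> simp [fm_pair]
  unfold bF
  set a := pd f 0 x with ha
  set b := pd f 1 x with hb
  set s := t1 T 0 x with hs
  set t := t1 T 1 x with ht
  have hg00 : gm F 0 0 x = inner ℝ a a + e ^ 2 * s ^ 2 := by
    unfold gm
    rw [hd1, fm_inner]
    ring
  have hg01 : gm F 0 1 x = inner ℝ a b + e ^ 2 * s * t := by
    unfold gm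
    rw [hd1, hd1, fm_inner]
    ring
  have hg11 : gm F 1 1 x = inner ℝ b b + e ^ 2 * t ^ 2 := by
    unfold gm
    rw [hd1, fm_inner]
    ring
  have hgd : gdet F x = gramJ e s t a b := by
    unfold gdet gramJ
    rw [hg00, hg01, hg11]
  have htv : traceVec F x = fm_pair (trJ e s t a b (pd2 f 0 0 x) (pd2 f 0 1 x) (pd2 f 1 1 x))
      (e * trJ e s t a b (t2 T 0 0 x) (t2 T 0 1 x) (t2 T 1 1 x)) := by
    unfold traceVec
    rw [d1_d1 hF, d1_d1 hF, d1_d1 hF, hgd, hg00, hg01, hg11, hd2, hd2, hd2]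
    simp only [fm_sc, fm_sub, fm_add]
    congr 1
    unfold trJ
    simp only [smul_eq_mul]
    ring
  set V := trJ e s t a b (pd2 f 0 0 x) (pd2 f 0 1 x) (pd2 f 1 1 x) with hV
  set v := trJ e s t a b (t2 T 0 0 x) (t2 T 0 1 x) (t2 T 1 1 x) with hv
  unfold hypCurvature meanCurvature
  rw [← map_smul, ← map_add, hx3, htv, hsing, fm_sc, fm_add, add_zero]
  have hDD : (inner ℝ (d1 F 0 x) (d1 F 0 x) * inner ℝ (d1 F 1 x) (d1 F 1 x) -
      (inner ℝ (d1 F 0 x) (d1 F 1 x) : ℝ) ^ 2) = gramJ e s t a b := hgd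
  rw [fm_proj _ _ _ (by rw [hDD]; exact hD), hDD]
  have e11 : (inner ℝ (d1 F 1 x) (d1 F 1 x) : ℝ) = inner ℝ b b + e ^ 2 * t ^ 2 := hg11
  have e01 : (inner ℝ (d1 F 0 x) (d1 F 1 x) : ℝ) = inner ℝ a b + e ^ 2 * s * t := hg01
  have e00 : (inner ℝ (d1 F 0 x) (d1 F 0 x) : ℝ) = inner ℝ a a + e ^ 2 * s ^ 2 := hg00
  rw [e11, e01, e00, hd1, hd1, fm_inner, fm_inner, fm_inner]
  unfold bJ qJ
  simp only [← hV, ← hv, real_inner_smul_left, real_inner_smul_right]
  set G := gramJ e s t a b with hG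
  have hne : G ≠ 0 := hD.ne'
  field_simp
  ring

end Pool.Agent.Lib_MP_752436_hg
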