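import Pool.Agent.Lib_MP_752436_hg.Stretch
import Pool.Agent.Lib_MP_752436_nb.Field
import Pool.Agent.Lib_MP_752436_gt.Shadow

/-!
PIECE 6 (all critical points). (a) The double points: for f immersed on the closed disc and SDisc f t there
is c > 0 with c <= |t x - t y| for all x <> y in the closed disc with f x = f y (compactness: f is locally
injective, so the set of these pairs is compact, and t x <> t y on it).
(b) The finitely many critical points in the closed disc have pairwise disjoint neighbourhoods W p in the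
open disc; exists_stretch at each of them (with the same t), eta = c / 3.
(c) t' = t + sum over p of (t_p - t): near every point it is equal to t or to one of the t_p.
-/

open Metric Set Filter
open scoped ContDiff Topology

namespace Pool.Agent.Lib_MP_752436_hg

open Pool.Agent.Lib_MP_752436_gt Pool.Agent.Lib_MP_752436_tp Pool.Agent.Lib_MP_752436_rb
  Pool.Agent.Lib_MP_752436_nb

/-- The heights of double points of the shadow are separated. -/
theorem double_gap {f : Plane → Space} {t : Plane → ℝ} (h : SDisc f t)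
    (him : ∀ x ∈ closedBall (0 : Plane) 1, Function.Injective (fderiv ℝ f x)) :
    ∃ c > 0, ∀ x ∈ closedBall (0 : Plane) 1, ∀ y ∈ closedBall (0 : Plane) 1, x ≠ y → f x = f y →
      c ≤ |t x - t y| := by
  set P : Set (Plane × Plane) := {z | z.1 ∈ closedBall (0 : Plane) 1 ∧
    z.2 ∈ closedBall (0 : Plane) 1 ∧ f z.1 = f z.2 ∧ z.1 ≠ z.2} with hP
  have hfc : Continuous f := h.smf.continuous
  have htc : Continuous t := h.smt.continuous
  have hPcl : IsClosed P := by
    rw [← closure_subset_iff_isClosed]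
    intro z hz
    have hD : IsClosed {z : Plane × Plane | z.1 ∈ closedBall (0 : Plane) 1 ∧
        z.2 ∈ closedBall (0 : Plane) 1 ∧ f z.1 = f z.2} := by
      have c1 : IsClosed {z : Plane × Plane | z.1 ∈ closedBall (0 : Plane) 1} :=
        isClosed_closedBall.preimage continuous_fst
      have c2 : IsClosed {z : Plane × Plane | z.2 ∈ closedBall (0 : Plane) 1} :=
        isClosed_closedBall.preimage continuous_snd
      have c3 : IsClosed {z : Plane × Plane | f z.1 = f z.2} :=
        isClosed_eq (hfc.comp continuous_fst) (hfc.comp continuous_snd)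
      exact c1.inter (c2.inter c3)
    have hz1 : z ∈ {z : Plane × Plane | z.1 ∈ closedBall (0 : Plane) 1 ∧
        z.2 ∈ closedBall (0 : Plane) 1 ∧ f z.1 = f z.2} := by
      have hsub : P ⊆ {z : Plane × Plane | z.1 ∈ closedBall (0 : Plane) 1 ∧
          z.2 ∈ closedBall (0 : Plane) 1 ∧ f z.1 = f z.2} :=
        fun w hw => ⟨hw.1, hw.2.1, hw.2.2.1⟩
      exact hD.closure_subset (closure_mono hsub hz)
    refine ⟨hz1.1, hz1.2.1, hz1.2.2, fun heq => ?_⟩
    have hst : HasStrictFDerivAt f (fderiv ℝ f z.1) z.1 :=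
      (h.smf.contDiffAt).hasStrictFDerivAt (by simp)
    obtain ⟨r, hr, hinj⟩ := shadow_locInj hst (fun u hu hu0 => hu
      (him z.1 hz1.1 (by rw [hu0, map_zero])))
    have hU : ball z.1 r ×ˢ ball z.1 r ∈ 𝓝 z := by
      have : z = (z.1, z.1) := by
        rw [Prod.ext_iff]; exact ⟨rfl, heq.symm⟩
      rw [this]
      exact prod_mem_nhds (ball_mem_nhds _ hr) (ball_mem_nhds _ hr)
    obtain ⟨w, hw1, hw2⟩ := mem_closure_iff_nhds.mp hz _ hU
    exact hw2.2.2.2 (hinj hw1.1 hw1.2 hw2.2.2.1)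
  have hPc : IsCompact P := by
    apply IsCompact.of_isClosed_subset
      ((isCompact_closedBall (0 : Plane) 1).prod (isCompact_closedBall (0 : Plane) 1)) hPcl
    intro z hz
    exact ⟨hz.1, hz.2.1⟩
  rcases P.eq_empty_or_nonempty with hE | hE
  · refine ⟨1, one_pos, fun x hx y hy hne hf => ?_⟩
    exfalso
    have : (x, y) ∈ P := ⟨hx, hy, hf, hne⟩
    rw [hE] at this
    exact this
  · have hcont : Continuous (fun z : Plane × Plane => |t z.1 - t z.2|) :=
      ((htc.comp continuous_fst).sub (htc.comp continuous_snd)).abs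
    obtain ⟨z, hz, hmin⟩ := hPc.exists_isMinOn hE hcont.continuousOn
    refine ⟨|t z.1 - t z.2|, ?_, fun x hx y hy hne hf => ?_⟩
    · apply abs_pos.mpr
      intro h0
      exact hz.2.2.2 (h.inj _ hz.1 _ hz.2.1 hz.2.2.1 (sub_eq_zero.mp h0))
    · exact isMinOn_iff.mp hmin (x, y) ⟨hx, hy, hf, hne⟩

/-- `nF f t p` depends on the germ of `t` only. -/
theorem nF_congr {f : Plane → Space} {t t' : Plane → ℝ} {p : Plane} (h : t' =ᶠ[𝓝 p] t) :
    nF f t' p = nF f t p := by
  have h1 : fderiv ℝ (fderiv ℝ t') p = fderiv ℝ (fderiv ℝ t) p := (h.fderiv).fderiv_eq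
  unfold nF t2
  rw [h1]

/-- The stretched height orders the double points as the old one. -/
theorem exists_stretched_order {f : Plane → Space} {t : Plane → ℝ} (h : SDisc f t)
    (hM : MorseNB t)
    (him : ∀ x ∈ closedBall (0 : Plane) 1, Function.Injective (fderiv ℝ f x)) :
    ∃ t' : Plane → ℝ, SDisc f t' ∧ (∀ x ∈ sphere (0 : Plane) 1, fderiv ℝ t' x ≠ 0) ∧
      (∀ x ∈ closedBall (0 : Plane) 1, fderiv ℝ t' x = 0 → nF f t' x < 0) ∧
      ∀ x ∈ closedBall (0 : Plane) 1, ∀ y ∈ closedBall (0 : Plane) 1, f x = f y →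
        t x < t y → t' x < t' y := by
  classical
  obtain ⟨c, hc, hgap⟩ := double_gap h him
  have hfin := finite_crit h.smt hM
  set C : Set Plane := {x | x ∈ closedBall (0 : Plane) 1 ∧ fderiv ℝ t x = 0} with hC
  obtain ⟨U, hU, hdisj⟩ := hfin.t2_separation
  have hCb : ∀ p ∈ C, p ∈ ball (0 : Plane) 1 := by
    intro p hp
    rcases (mem_closedBall.1 hp.1).lt_or_eq with h1 | h1
    · exact mem_ball.2 h1
    · exact absurd hp.2 (hM.neat p (mem_sphere.2 h1))
  set W : Plane → Set Plane := fun p => U p ∩ ball (0 : Plane) 1 with hW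
  have hWopen : ∀ p, IsOpen (W p) := fun p => (hU p).2.inter isOpen_ball
  have hWd : ∀ p ∈ C, ∀ q ∈ C, ∀ x, x ∈ W p → x ∈ W q → p = q := by
    intro p hp q hq x hxp hxq
    by_contra hne
    exact (Set.disjoint_left.mp (hdisj hp hq hne)) hxp.1 hxq.1
  have hex : ∀ p, ∃ t' : Plane → ℝ, p ∈ C → (ContDiff ℝ ∞ t' ∧ (∀ x ∉ W p, t' =ᶠ[𝓝 x] t) ∧
      (∀ x, |t' x - t x| ≤ c / 3) ∧ (∀ x ∈ W p, ∃ y ∈ W p, t' x = t y) ∧
      (∀ x ∈ W p, fderiv ℝ t' x = 0 → x = p) ∧ fderiv ℝ t' p = 0 ∧ nF f t' p < 0) := by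
    intro p
    by_cases hp : p ∈ C
    · obtain ⟨t', ht'⟩ := exists_stretch (f := f) h.smt (him p hp.1) hp.2
        (hM.noMin p (hCb p hp) hp.2) (hWopen p) ⟨(hU p).1, hCb p hp⟩
        (fun x hx hx0 => by
          have hxC : x ∈ C := ⟨ball_subset_closedBall hx.2, hx0⟩
          exact hWd x hxC p hp x ⟨(hU x).1, hx.2⟩ hx) (η := c / 3) (by positivity)
      exact ⟨t', fun _ => ht'⟩
    · exact ⟨t, fun hp' => absurd hp' hp⟩
  choose s hs using hex
  set S : Finset Plane := hfin.toFinset with hS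
  have hSC : ∀ p, p ∈ S ↔ p ∈ C := fun p => hfin.mem_toFinset
  set T : Plane → ℝ := fun x => t x + ∑ p ∈ S, (s p x - t x) with hT
  -- near a point of `W p`
  have near1 : ∀ p ∈ C, ∀ x ∈ W p, T =ᶠ[𝓝 x] s p := by
    intro p hp x hx
    filter_upwards [(hWopen p).mem_nhds hx] with y hy
    have h1 : ∑ q ∈ S, (s q y - t y) = s p y - t y := by
      rw [Finset.sum_eq_single p]
      · intro q hq hqp
        have hqC := (hSC q).mp hq
        have hyq : y ∉ W q := fun hyq => hqp (hWd q hqC p hp y hyq hy)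
        rw [((hs q hqC).2.1 y hyq).eq_of_nhds, sub_self]
      · intro hpS
        exact absurd ((hSC p).mpr hp) hpS
    simp only [hT, h1]
    ring
  have near2 : ∀ x, (∀ p ∈ C, x ∉ W p) → T =ᶠ[𝓝 x] t := by
    intro x hx
    have h1 : ∀ᶠ y in 𝓝 x, ∀ p ∈ S, s p y = t y := by
      rw [Finset.eventually_all]
      intro p hp
      exact (hs p ((hSC p).mp hp)).2.1 x (hx p ((hSC p).mp hp))
    filter_upwards [h1] with y hy
    have h2 : ∑ q ∈ S, (s q y - t y) = 0 :=
      Finset.sum_eq_zero fun q hq => by rw [hy q hq, sub_self]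
    simp only [hT, h2, add_zero]
  have hTs : ContDiff ℝ ∞ T := by
    apply h.smt.add
    apply ContDiff.sum
    intro p hp
    exact (hs p ((hSC p).mp hp)).1.sub h.smt
  have hclose : ∀ x, |T x - t x| ≤ c / 3 := by
    intro x
    by_cases hx : ∃ p ∈ C, x ∈ W p
    · obtain ⟨p, hp, hxp⟩ := hx
      rw [(near1 p hp x hxp).eq_of_nhds]
      exact (hs p hp).2.2.1 x
    · push Not at hx
      rw [(near2 x hx).eq_of_nhds, sub_self, abs_zero]
      positivity
  refine ⟨T, ⟨h.smf, hTs, ?_, ?_, ?_, ?_⟩, ?_, ?_, ?_⟩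
  · intro x hx y hy hf ht
    by_contra hne
    have h1 := hgap x hx y hy hne hf
    have h2 := hclose x
    have h3 := hclose y
    rw [abs_le] at h2 h3
    rcases le_abs'.mp h1 with h4 | h4
    · linarith [h2.1, h2.2, h3.1, h3.2]
    · linarith [h2.1, h2.2, h3.1, h3.2]
  · intro x hx u hu _
    apply him x hx
    rw [hu, map_zero]
  · intro x hx
    have h1 : ∀ p ∈ C, x ∉ W p := fun p _ hxp => by
      have h2 := mem_ball.mp hxp.2
      rw [mem_sphere.mp hx] at h2
      exact lt_irrefl _ h2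
    rw [(near2 x h1).eq_of_nhds]
    exact h.bd x hx
  · intro x hx
    by_cases hxx : ∃ p ∈ C, x ∈ W p
    · obtain ⟨p, hp, hxp⟩ := hxx
      rw [(near1 p hp x hxp).eq_of_nhds]
      obtain ⟨y, hy, hxy⟩ := (hs p hp).2.2.2.1 x hxp
      rw [hxy]
      exact h.pos y hy.2
    · push Not at hxx
      rw [(near2 x hxx).eq_of_nhds]
      exact h.pos x hx
  · intro x hx
    have h1 : ∀ p ∈ C, x ∉ W p := fun p _ hxp => by
      have h2 := mem_ball.mp hxp.2
      rw [mem_sphere.mp hx] at h2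
      exact lt_irrefl _ h2
    rw [(near2 x h1).fderiv_eq]
    exact hM.neat x hx
  · intro x hx hx0
    by_cases hxx : ∃ p ∈ C, x ∈ W p
    · obtain ⟨p, hp, hxp⟩ := hxx
      rw [(near1 p hp x hxp).fderiv_eq] at hx0
      have hxp' : x = p := (hs p hp).2.2.2.2.1 x hxp hx0
      rw [nF_congr (near1 p hp x hxp), hxp']
      exact (hs p hp).2.2.2.2.2.2
    · push Not at hxx
      rw [(near2 x hxx).fderiv_eq] at hx0
      have hxC : x ∈ C := ⟨hx, hx0⟩
      exact absurd ⟨(hU x).1, hCb x hxC⟩ (hxx x hxC)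
  · intro x hx y hy hf ht
    have hne : x ≠ y := fun h0 => by rw [h0] at ht; exact lt_irrefl _ ht
    have h1 := hgap x hx y hy hne hf
    have h2 := hclose x
    have h3 := hclose y
    rw [abs_le] at h2 h3
    rw [abs_of_neg (sub_neg.2 ht)] at h1
    linarith [h2.1, h2.2, h3.1, h3.2]

theorem exists_stretched {f : Plane → Space} {t : Plane → ℝ} (h : SDisc f t) (hM : MorseNB t)
    (him : ∀ x ∈ closedBall (0 : Plane) 1, Function.Injective (fderiv ℝ f x)) :
    ∃ t' : Plane → ℝ, SDisc f t' ∧ (∀ x ∈ sphere (0 : Plane) 1, fderiv ℝ t' x ≠ 0) ∧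
      ∀ x ∈ closedBall (0 : Plane) 1, fderiv ℝ t' x = 0 → nF f t' x < 0 := by
  obtain ⟨t', h1, h2, h3, -⟩ := exists_stretched_order h hM him
  exact ⟨t', h1, h2, h3⟩

end Pool.Agent.Lib_MP_752436_hg
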