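import Pool.Agent.Lib_MP_752436_hg.Formula
import Pool.Agent.Lib_MP_752436_hg.Cont

/-!
Discs with immersed shadow give discs of hyperbolic mean curvature less than `1 + ε`.
-/

open Metric Set Filter
open scoped ContDiff Topology

namespace Pool.Agent.Lib_MP_752436_hg

open Pool.Agent.Lib_MP_752436_gt Pool.Agent.Lib_MP_752436_tp Pool.Agent.Lib_MP_752436_rb
  Pool.Agent.Lib_MP_752436_nb

/-- Changing the height by an increasing function. -/
theorem sdisc_comp {f : Plane → Space} {t : Plane → ℝ} (h : SDisc f t)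
    (him : ∀ x ∈ closedBall (0 : Plane) 1, Function.Injective (fderiv ℝ f x)) {G : ℝ → ℝ}
    (hG : ContDiff ℝ ∞ G) (h0 : G 0 = 0) (hm : StrictMonoOn G (Ici 0)) :
    SDisc f (fun x => G (t x)) := by
  have hnn : ∀ x ∈ closedBall (0 : Plane) 1, 0 ≤ t x := by
    intro x hx
    rcases ball_or_sphere hx with h1 | h1
    · exact (h.pos x h1).le
    · exact (h.bd x h1).ge
  refine ⟨h.smf, hG.comp h.smt, ?_, ?_, ?_, ?_⟩
  · intro x hx y hy hf ht
    exact h.inj x hx y hy hf (hm.injOn (hnn x hx) (hnn y hy) ht)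
  · intro x hx u hu _
    exact (injective_iff_map_eq_zero _).1 (him x hx) u hu
  · intro x hx
    show G (t x) = 0
    rw [h.bd x hx, h0]
  · intro x hx
    show 0 < G (t x)
    rw [← h0]
    exact hm (mem_Ici.2 le_rfl) (h.pos x hx).le (h.pos x hx)

theorem sdisc_smul {f : Plane → Space} {t : Plane → ℝ} (h : SDisc f t)
    (him : ∀ x ∈ closedBall (0 : Plane) 1, Function.Injective (fderiv ℝ f x)) {e : ℝ}
    (he : 0 < e) : SDisc f (fun x => e * t x) :=
  sdisc_comp h him (G := fun s => e * s) (by fun_prop) (by simp)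
    (fun a _ b _ hab => mul_lt_mul_of_pos_left hab he)

theorem exists_disc_of_immersed {F : Plane → EuclideanSpace ℝ (Fin 4)} (hF : IsSliceDisc F)
    (him : ∀ x ∈ closedBall (0 : Plane) 1, Function.Injective (fderiv ℝ (shadow F) x)) {ε : ℝ}
    (hε : 0 < ε) :
    ∃ F', IsSliceDisc F' ∧ shadow F' = shadow F ∧
      ∀ x ∈ closedBall (0 : Plane) 1, hypCurvature F' x < 1 + ε := by
  have hS := sdisc_of_sliceDisc hF
  obtain ⟨c, hc, hbound⟩ := exists_bound hS.smf hS.smt him
  obtain ⟨ε₀, hε₀, hsmall⟩ := exists_small_lt hS.smf hS.smt him hbound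
  obtain ⟨e, he, he0, he1⟩ : ∃ e : ℝ, 0 < e ∧ e ≤ ε₀ ∧ e ^ 2 * c ≤ ε := by
    refine ⟨min ε₀ (min 1 (ε / c)), by positivity, min_le_left _ _, ?_⟩
    set e := min ε₀ (min 1 (ε / c))
    have h0 : 0 < e := by positivity
    have h1 : e ≤ 1 := (min_le_right _ _).trans (min_le_left _ _)
    have h2 : e ≤ ε / c := (min_le_right _ _).trans (min_le_right _ _)
    have h3 : e * c ≤ ε := (le_div_iff₀ hc).1 h2
    nlinarith [mul_nonneg h0.le hc.le]
  refine ⟨lift4 (shadow F) (fun y => e * height F y), isSliceDisc_of_sdisc (sdisc_smul hS him he),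
    shadow_lift4 _ _, fun x hx => ?_⟩
  have h1 := hypCurvature_sq hS.smf hS.smt e (x := x) (gramJ_pos (him x hx) _ _ _)
  have h2 := hsmall e he he0 x hx
  have h3 : hypCurvature (lift4 (shadow F) (fun y => e * height F y)) x ^ 2 < (1 + ε) ^ 2 := by
    rw [h1]
    have h4 : e ^ 2 * bF (shadow F) (height F) e x < e ^ 2 * c :=
      mul_lt_mul_of_pos_left h2 (by positivity)
    nlinarith
  exact lt_of_pow_lt_pow_left₀ 2 (by positivity) h3

end Pool.Agent.Lib_MP_752436_hg
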