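import Pool.Agent.Lib_MP_752436_hg.Formula
import Pool.Agent.Lib_MP_752436_hg.Super
import Pool.Agent.Lib_MP_752436_hg.Induct
import Pool.Agent.Lib_MP_752436_hg.Sharp

/-!
Ribbon knots bound slice discs of hyperbolic mean curvature less than one.
-/

open MeasureTheory Metric Set Filter
open scoped ContDiff Topology

namespace Pool.Agent.Lib_MP_752436_hg

open Pool.Agent.Lib_MP_752436_gt Pool.Agent.Lib_MP_752436_tp Pool.Agent.Lib_MP_752436_rb
  Pool.Agent.Lib_MP_752436_nb

/-- A ribbon knot bounds a Morse slice disc without births and with immersed shadow. -/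
theorem exists_immersed_of_ribbon {K : Set Space} (hK : IsRibbonKnot K) :
    ∃ G, MorseDisc G ∧ births G = ∅ ∧ boundaryKnot G = K ∧
      ∀ x ∈ closedBall (0 : Plane) 1, Function.Injective (fderiv ℝ (shadow G) x) := by
  obtain ⟨F, hF, hFK, hS, hU, hE⟩ := exists_slice_of_ribbon hK
  obtain ⟨G, hG, hfin, hle, hGF, -⟩ := curvature_births_obstacle hF (by rw [hS]; exact countable_empty) hU
  have hpi := Real.pi_pos
  have hb : births G = ∅ := by
    rw [← Set.ncard_eq_zero hfin]
    by_contra h0
    have h1 : (1 : ℝ) ≤ (births G).ncard := by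
      exact_mod_cast Nat.one_le_iff_ne_zero.2 h0
    have h3 : posCurvatureOn (projThree F) (enclosedBy (upperSet F ∪ singularSet F)) = 0 := by
      rw [hS, union_empty, hE, posCurvatureOn, setLIntegral_measure_zero _ _ hU]
    rw [h3] at hle
    have h4 : 0 < ENNReal.ofReal (4 * Real.pi * (births G).ncard) :=
      ENNReal.ofReal_pos.2 (by positivity)
    exact absurd hle (not_le.2 h4)
  have hsh : shadow G = shadow F := by
    funext x
    unfold shadow
    rw [hGF x 0 (by decide), hGF x 1 (by decide), hGF x 2 (by decide)]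
  refine ⟨G, hG, hb, ?_, ?_⟩
  · rw [← hFK]
    exact boundaryKnot_congr hGF
  · intro x hx
    rw [hsh, injective_iff_map_eq_zero]
    intro u hu
    have hn : nvec (projThree F) x ≠ 0 := by
      intro h0
      have h1 : x ∈ singularSet F := ⟨hx, h0⟩
      rw [hS] at h1
      exact h1
    refine immersed_of_nvec hF.smooth hn ?_
    have h2 : fderiv ℝ (projThree F) x u = 0 := hu
    rw [fderiv_projThree hF.smooth, P3_apply] at h2
    intro i hi
    fin_cases i
    · exact congrArg (fun z : Space => z 0) h2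
    · exact congrArg (fun z : Space => z 1) h2
    · exact congrArg (fun z : Space => z 2) h2
    · exact absurd rfl hi

theorem exists_disc_of_ribbon {K : Set Space} (hK : IsRibbonKnot K) :
    ∃ F, IsSliceDisc F ∧ boundaryKnot F = K ∧ ∀ x ∈ closedBall (0 : Plane) 1, hypCurvature F x < 1 := by
  obtain ⟨G, hG, hb, hGK, him⟩ := exists_immersed_of_ribbon hK
  have hS := sdisc_of_sliceDisc hG.slice
  obtain ⟨t, ht, hneat, hcrit⟩ := exists_stretched hS (morseNB_of_births hG hb) him
  obtain ⟨g, hg, hg0, hgm, hneg⟩ := exists_height ht.smf ht.smt him ht.bd ht.pos hneat hcrit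
  have hT : SDisc (shadow G) (fun x => g (t x)) := sdisc_comp ht him hg hg0 hgm
  obtain ⟨ε₀, hε₀, hsmall⟩ := exists_small_lt hT.smf hT.smt him hneg
  refine ⟨lift4 (shadow G) (fun y => ε₀ * g (t y)), isSliceDisc_of_sdisc (sdisc_smul hT him hε₀), ?_,
    fun x hx => ?_⟩
  · rw [← hGK]
    unfold boundaryKnot
    rw [shadow_lift4]
  · have h1 := hypCurvature_sq hT.smf hT.smt ε₀ (x := x) (gramJ_pos (him x hx) _ _ _)
    have h2 := hsmall ε₀ hε₀ le_rfl x hx
    have h3 : hypCurvature (lift4 (shadow G) (fun y => ε₀ * g (t y))) x ^ 2 < 1 ^ 2 := by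
      rw [h1]
      have h4 : ε₀ ^ 2 * bF (shadow G) (fun x => g (t x)) ε₀ x < 0 :=
        mul_neg_of_pos_of_neg (by positivity) h2
      linarith
    exact lt_of_pow_lt_pow_left₀ 2 zero_le_one h3

end Pool.Agent.Lib_MP_752436_hg
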