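import Pool.Agent.Lib_MP_752436_hg.Defs
import Pool.Agent.Lib_MP_752436_hg.Cont

/-!
PIECE 5 (stretching a critical point). Let u be a unit vector with D^2 t(u, u) < 0, v a unit vector
orthogonal to u, closedBall p r in W, b : R -> [0, 1] smooth, antitone, b = 1 on (-oo, 1/2], b = 0 on [1, oo)
(b z = Real.smoothTransition (2 - 2 z)), 0 < s < 1, and
psi x = x - (1 - s) b(|x - p|^2 / r^2) <x - p, v> v, t' = t o psi.
psi p = p, psi = id outside the ball, |psi x - p| <= |x - p|, psi x = p only for x = p.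
D psi (w) = w - (1 - s) (b' 2 <x-p,w>/r^2 <x-p,v> + b <w,v>) v is injective: w is a multiple of v and
1 - (1 - s)(2 b' <x-p,v>^2 / r^2 + b) >= s > 0 as b' <= 0. So critical points of t' in the ball are mapped
to critical points of t in the ball, i.e. only p. Near p psi is affine with linear part
A w = w - (1 - s) <w,v> v, D^2 t'(w, w') = D^2 t(A w, A w') at p, and for s -> 0 A w -> <w,u> u,
so nF f t' p -> D^2 t(u, u) (2 det)^(-1) (g11 u0^2 - 2 g01 u0 u1 + g00 u1^2) < 0. r small for |t' - t| <= eta.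
-/

open Metric Set Filter
open scoped ContDiff Topology

namespace Pool.Agent.Lib_MP_752436_hg

open Pool.Agent.Lib_MP_752436_gt Pool.Agent.Lib_MP_752436_tp Pool.Agent.Lib_MP_752436_rb
  Pool.Agent.Lib_MP_752436_nb

/-- the radial cut-off -/
private noncomputable def cb (p : Plane) (r : ℝ) (x : Plane) : ℝ :=
  Real.smoothTransition (2 - 2 * (‖x - p‖ ^ 2 / r ^ 2))

/-- the stretching map -/
private noncomputable def psi (p v : Plane) (r s : ℝ) (x : Plane) : Plane :=
  x - ((1 - s) * (cb p r x * inner ℝ v (x - p))) • v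

private theorem cb_contDiff (p : Plane) (r : ℝ) : ContDiff ℝ ∞ (cb p r) := by
  unfold cb
  have h1 : ContDiff ℝ ∞ (fun x : Plane => ‖x - p‖ ^ 2) := (contDiff_id.sub contDiff_const).norm_sq ℝ
  exact (Real.smoothTransition.contDiff (n := ⊤)).comp
    (contDiff_const.sub (contDiff_const.mul (h1.div_const _)))

private theorem psi_contDiff (p v : Plane) (r s : ℝ) : ContDiff ℝ ∞ (psi p v r s) := by
  unfold psi
  have h1 := cb_contDiff p r
  have h2 : ContDiff ℝ ∞ (fun x : Plane => (inner ℝ v (x - p) : ℝ)) :=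
    contDiff_const.inner ℝ (contDiff_id.sub contDiff_const)
  exact contDiff_id.sub ((contDiff_const.mul (h1.mul h2)).smul contDiff_const)

private theorem cb_nonneg (p : Plane) (r : ℝ) (x : Plane) : 0 ≤ cb p r x := Real.smoothTransition.nonneg _

private theorem cb_le_one (p : Plane) (r : ℝ) (x : Plane) : cb p r x ≤ 1 := Real.smoothTransition.le_one _

private theorem cb_zero {p : Plane} {r : ℝ} (hr : 0 < r) {x : Plane} (hx : x ∉ ball p r) : cb p r x = 0 := by
  unfold cb
  apply Real.smoothTransition.zero_of_nonpos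
  rw [mem_ball, dist_eq_norm, not_lt] at hx
  have h1 : 1 ≤ ‖x - p‖ ^ 2 / r ^ 2 := by
    rw [le_div_iff₀ (by positivity), one_mul]
    gcongr
  linarith

private theorem cb_one {p : Plane} {r : ℝ} (hr : 0 < r) {x : Plane} (hx : x ∈ ball p (r / 2)) : cb p r x = 1 := by
  unfold cb
  apply Real.smoothTransition.one_of_one_le
  rw [mem_ball, dist_eq_norm] at hx
  have h1 : ‖x - p‖ ^ 2 / r ^ 2 ≤ 1 / 2 := by
    rw [div_le_iff₀ (by positivity)]
    nlinarith [norm_nonneg (x - p)]
  linarith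

/-- the derivative of the cut-off, with its sign -/
private theorem cb_deriv (p : Plane) (r : ℝ) (x : Plane) : ∃ c : ℝ, 0 ≤ c ∧
    HasFDerivAt (cb p r) ((-(c * (4 / r ^ 2))) • innerSL ℝ (x - p)) x := by
  set y := 2 - 2 * (‖x - p‖ ^ 2 / r ^ 2) with hy
  have hd : DifferentiableAt ℝ Real.smoothTransition y :=
    (Real.smoothTransition.contDiff (n := 1)).differentiable (by simp) y
  refine ⟨deriv Real.smoothTransition y, Real.smoothTransition.monotone.deriv_nonneg, ?_⟩
  have h1 : HasFDerivAt (fun x : Plane => ‖x - p‖ ^ 2) (2 • (innerSL ℝ (x - p))) x := by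
    have h2 := HasFDerivAt.comp (g := fun y : Plane => ‖y‖ ^ 2) (f := fun x : Plane => x - p) x
      (hasStrictFDerivAt_norm_sq (x - p)).hasFDerivAt ((hasFDerivAt_id x).sub_const p)
    rw [ContinuousLinearMap.comp_id] at h2
    exact h2
  have h3 : HasFDerivAt (fun x : Plane => 2 - 2 * (‖x - p‖ ^ 2 / r ^ 2))
      ((-(4 / r ^ 2)) • (innerSL ℝ (x - p))) x := by
    have h4 := ((h1.mul_const ((r ^ 2)⁻¹)).const_mul 2).const_sub 2
    refine (h4.congr_fderiv ?_).congr_of_eventuallyEq (Eventually.of_forall fun z => ?_)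
    · ext w
      simp
      ring
    · simp only [div_eq_mul_inv]
  have h5 := hd.hasDerivAt.comp_hasFDerivAt x h3
  refine (h5.congr_fderiv ?_)
  rw [smul_smul]
  congr 1
  ring

private theorem psi_deriv (p v : Plane) (r s : ℝ) (x : Plane) : ∃ c : ℝ, 0 ≤ c ∧
    HasFDerivAt (psi p v r s) (ContinuousLinearMap.id ℝ Plane - ((1 - s) • (cb p r x • innerSL ℝ v +
      (inner ℝ v (x - p) : ℝ) • ((-(c * (4 / r ^ 2))) • innerSL ℝ (x - p)))).smulRight v) x := by
  obtain ⟨c, hc, h1⟩ := cb_deriv p r x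
  refine ⟨c, hc, ?_⟩
  have h2 : HasFDerivAt (fun x : Plane => (inner ℝ v (x - p) : ℝ)) (innerSL ℝ v) x := by
    have h3 : HasFDerivAt (fun x : Plane => (inner ℝ v (x - p) : ℝ))
        ((innerSL ℝ v).comp (ContinuousLinearMap.id ℝ Plane)) x :=
      (innerSL ℝ v).hasFDerivAt.comp x ((hasFDerivAt_id x).sub_const p)
    rwa [ContinuousLinearMap.comp_id] at h3
  exact (hasFDerivAt_id x).sub (((h1.mul h2).const_mul (1 - s)).smul_const v)

private theorem psi_inj {p v : Plane} {r s : ℝ} (hv : ‖v‖ = 1) (hs : 0 < s) (hs1 : s ≤ 1) (x : Plane) :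
    Function.Injective (fderiv ℝ (psi p v r s) x) := by
  obtain ⟨c, hc, h1⟩ := psi_deriv p v r s x
  rw [h1.fderiv]
  rw [injective_iff_map_eq_zero]
  intro w hw
  have hvv : (inner ℝ v v : ℝ) = 1 := by
    rw [real_inner_self_eq_norm_sq, hv]
    norm_num
  simp only [sub_apply, ContinuousLinearMap.id_apply, ContinuousLinearMap.smulRight_apply,
    smul_apply, add_apply, innerSL_apply_apply, smul_eq_mul] at hw
  obtain ⟨κ, hκ⟩ : ∃ κ, κ = (1 - s) * (cb p r x * inner ℝ v w +
    inner ℝ v (x - p) * (-(c * (4 / r ^ 2)) * inner ℝ (x - p) w)) := ⟨_, rfl⟩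
  rw [← hκ] at hw
  have hw2 : w = κ • v := sub_eq_zero.1 hw
  have e1 : (inner ℝ v w : ℝ) = κ := by
    rw [hw2, real_inner_smul_right, hvv, mul_one]
  have e2 : (inner ℝ (x - p) w : ℝ) = κ * inner ℝ v (x - p) := by
    rw [hw2, real_inner_smul_right, real_inner_comm]
  rw [e1, e2] at hκ
  have e3 : κ * (1 - (1 - s) * cb p r x + (1 - s) * (c * (4 / r ^ 2)) * (inner ℝ v (x - p)) ^ 2) = 0 := by
    linarith
  have e4 : 0 < 1 - (1 - s) * cb p r x + (1 - s) * (c * (4 / r ^ 2)) * (inner ℝ v (x - p)) ^ 2 := by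
    have g1 : 0 ≤ (1 - s) * (c * (4 / r ^ 2)) * (inner ℝ v (x - p)) ^ 2 := by
      have : 0 ≤ 1 - s := by linarith
      positivity
    have g2 : (1 - s) * cb p r x ≤ (1 - s) * 1 :=
      mul_le_mul_of_nonneg_left (cb_le_one p r x) (by linarith)
    linarith
  have e5 : κ = 0 := by
    rcases mul_eq_zero.1 e3 with h | h
    · exact h
    · exact absurd h e4.ne'
  rw [hw2, e5, zero_smul]

private theorem psi_surj {p v : Plane} {r s : ℝ} (hv : ‖v‖ = 1) (hs : 0 < s) (hs1 : s ≤ 1) (x : Plane) :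
    Function.Surjective (fderiv ℝ (psi p v r s) x) := by
  have h := psi_inj (p := p) (r := r) hv hs hs1 x
  exact (LinearMap.injective_iff_surjective (f := (fderiv ℝ (psi p v r s) x).toLinearMap)).1 h

private theorem psi_base (p v : Plane) (r s : ℝ) : psi p v r s p = p := by
  unfold psi
  simp

private theorem psi_off {p v : Plane} {r s : ℝ} (hr : 0 < r) {x : Plane} (hx : x ∉ ball p r) :
    psi p v r s x = x := by
  unfold psi
  rw [cb_zero hr hx]
  simp

private theorem psi_norm {p v : Plane} {r s : ℝ} (hv : ‖v‖ = 1) (hs : 0 < s) (hs1 : s ≤ 1) (x : Plane) :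
    ‖psi p v r s x - p‖ ≤ ‖x - p‖ := by
  have h0 : psi p v r s x - p = (x - p) - ((1 - s) * (cb p r x * inner ℝ v (x - p))) • v := by
    unfold psi
    abel
  rw [h0]
  refine le_of_sq_le_sq ?_ (norm_nonneg _)
  rw [norm_sub_sq_real, real_inner_smul_right, norm_smul, hv, mul_one, Real.norm_eq_abs, sq_abs,
    real_inner_comm v (x - p)]
  obtain ⟨g, hg⟩ : ∃ g, g = (inner ℝ v (x - p) : ℝ) := ⟨_, rfl⟩
  obtain ⟨μ, hμ⟩ : ∃ μ, μ = (1 - s) * cb p r x := ⟨_, rfl⟩
  have h1 : 0 ≤ μ := by
    rw [hμ]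
    exact mul_nonneg (by linarith) (cb_nonneg p r x)
  have h2 : μ ≤ 1 := by
    rw [hμ]
    exact mul_le_one₀ (by linarith) (cb_nonneg p r x) (cb_le_one p r x)
  rw [← hg]
  have h3 : (1 - s) * (cb p r x * g) = μ * g := by
    rw [hμ]
    ring
  rw [h3]
  nlinarith [mul_nonneg (mul_nonneg h1 (by linarith : (0 : ℝ) ≤ 2 - μ)) (sq_nonneg g)]

private theorem psi_eq_base {p v : Plane} {r s : ℝ} (hv : ‖v‖ = 1) (hs : 0 < s) (hs1 : s ≤ 1) {x : Plane}
    (h : psi p v r s x = p) : x = p := by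
  have hvv : (inner ℝ v v : ℝ) = 1 := by
    rw [real_inner_self_eq_norm_sq, hv]
    norm_num
  unfold psi at h
  obtain ⟨κ, hκ⟩ : ∃ κ, κ = (1 - s) * (cb p r x * inner ℝ v (x - p)) := ⟨_, rfl⟩
  rw [← hκ] at h
  have h1 : x - p = κ • v := by
    rw [sub_eq_iff_eq_add] at h
    rw [h]
    abel
  rw [h1, real_inner_smul_right, hvv, mul_one] at hκ
  have h2 : κ * (1 - (1 - s) * cb p r x) = 0 := by linarith
  have h3 : 0 < 1 - (1 - s) * cb p r x := by
    have g2 : (1 - s) * cb p r x ≤ (1 - s) * 1 :=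
      mul_le_mul_of_nonneg_left (cb_le_one p r x) (by linarith)
    linarith
  have h4 : κ = 0 := by
    rcases mul_eq_zero.1 h2 with h | h
    · exact h
    · exact absurd h h3.ne'
  rw [h4, zero_smul, sub_eq_zero] at h1
  exact h1

/-- the linear part near the base point -/
private noncomputable def lin (v : Plane) (s : ℝ) : Plane →L[ℝ] Plane :=
  ContinuousLinearMap.id ℝ Plane - ((1 - s) • innerSL ℝ v).smulRight v

private theorem lin_apply (v : Plane) (s : ℝ) (w : Plane) : lin v s w = w - ((1 - s) * inner ℝ v w) • v := by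
  unfold lin
  simp

private theorem psi_near {p v : Plane} {r s : ℝ} (hr : 0 < r) {x : Plane} (hx : x ∈ ball p (r / 2)) :
    psi p v r s x = p + lin v s (x - p) := by
  rw [lin_apply]
  unfold psi
  rw [cb_one hr hx, one_mul]
  abel

private theorem second {t : Plane → ℝ} (ht : ContDiff ℝ ∞ t) (p v : Plane) {r s : ℝ} (hr : 0 < r) (i j : Fin 2) :
    t2 (fun x => t (psi p v r s x)) i j p = fderiv ℝ (fderiv ℝ t) p (lin v s (EuclideanSpace.single i 1))
      (lin v s (EuclideanSpace.single j 1)) := by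
  have h1 : fderiv ℝ (fun x => t (psi p v r s x)) =ᶠ[𝓝 p]
      fun x => (fderiv ℝ t (p + lin v s (x - p))).comp (lin v s) := by
    filter_upwards [isOpen_ball.mem_nhds (mem_ball_self (x := p) (half_pos hr))] with x hx
    have h2 : (fun x => t (psi p v r s x)) =ᶠ[𝓝 x] fun x => t (p + lin v s (x - p)) := by
      filter_upwards [isOpen_ball.mem_nhds hx] with z hz
      rw [psi_near hr hz]
    rw [h2.fderiv_eq]
    have h3 : HasFDerivAt (fun x => p + lin v s (x - p)) (lin v s) x := by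
      have := ((lin v s).hasFDerivAt.comp x ((hasFDerivAt_id x).sub_const p)).const_add p
      simpa using this
    exact (((ht.differentiable (by simp)) _).hasFDerivAt.comp x h3).fderiv
  unfold t2
  rw [h1.fderiv_eq]
  have h3 : HasFDerivAt (fun x => p + lin v s (x - p)) (lin v s) p := by
    have := ((lin v s).hasFDerivAt.comp p ((hasFDerivAt_id p).sub_const p)).const_add p
    simpa using this
  have hd : DifferentiableAt ℝ (fderiv ℝ t) (p + lin v s (p - p)) :=
    ((ht.fderiv_right (m := ∞) (by simp)).differentiable (by simp)) _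
  have h4 : HasFDerivAt (fun x => fderiv ℝ t (p + lin v s (x - p)))
      ((fderiv ℝ (fderiv ℝ t) (p + lin v s (p - p))).comp (lin v s)) p := hd.hasFDerivAt.comp p h3
  have h5 := h4.clm_comp (hasFDerivAt_const (lin v s) p)
  rw [h5.fderiv]
  simp

theorem exists_stretch {f : Plane → Space} {t : Plane → ℝ} (ht : ContDiff ℝ ∞ t) {p : Plane}
    (him : Function.Injective (fderiv ℝ f p)) (h0 : fderiv ℝ t p = 0)
    (hu : ∃ u, fderiv ℝ (fderiv ℝ t) p u u < 0) {W : Set Plane} (hW : IsOpen W) (hpW : p ∈ W)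
    (hiso : ∀ x ∈ W, fderiv ℝ t x = 0 → x = p) {η : ℝ} (hη : 0 < η) :
    ∃ t' : Plane → ℝ, ContDiff ℝ ∞ t' ∧ (∀ x ∉ W, t' =ᶠ[𝓝 x] t) ∧ (∀ x, |t' x - t x| ≤ η) ∧
      (∀ x ∈ W, ∃ y ∈ W, t' x = t y) ∧ (∀ x ∈ W, fderiv ℝ t' x = 0 → x = p) ∧
      fderiv ℝ t' p = 0 ∧ nF f t' p < 0 := by
  -- a unit vector in the negative direction and a unit vector orthogonal to it
  obtain ⟨u', hu'⟩ := hu
  have hu'0 : u' ≠ 0 := by
    rintro rfl
    simp at hu'
  obtain ⟨a, b, hab, hneg⟩ : ∃ a b : ℝ, a ^ 2 + b ^ 2 = 1 ∧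
      fderiv ℝ (fderiv ℝ t) p (!₂[a, b] : Plane) (!₂[a, b] : Plane) < 0 := by
    have hn : 0 < ‖u'‖ := norm_pos_iff.2 hu'0
    have hn2 : ‖u'‖ ^ 2 = u' 0 ^ 2 + u' 1 ^ 2 := by
      rw [EuclideanSpace.norm_sq_eq, Fin.sum_univ_two, Real.norm_eq_abs, Real.norm_eq_abs, sq_abs, sq_abs]
    refine ⟨‖u'‖⁻¹ * u' 0, ‖u'‖⁻¹ * u' 1, ?_, ?_⟩
    · rw [mul_pow, mul_pow, ← mul_add, ← hn2, ← mul_pow, inv_mul_cancel₀ hn.ne', one_pow]
    · have h1 : (!₂[‖u'‖⁻¹ * u' 0, ‖u'‖⁻¹ * u' 1] : Plane) = ‖u'‖⁻¹ • u' := by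
        ext i
        fin_cases i <;> simp
      have h2 : fderiv ℝ (fderiv ℝ t) p (‖u'‖⁻¹ • u') (‖u'‖⁻¹ • u') =
          (‖u'‖⁻¹ * ‖u'‖⁻¹) * fderiv ℝ (fderiv ℝ t) p u' u' := by
        simp only [map_smul, FunLike.coe_smul, Pi.smul_apply, smul_eq_mul]
        ring
      rw [h1, h2]
      exact mul_neg_of_pos_of_neg (by positivity) hu'
  set u : Plane := !₂[a, b] with hudef
  set v : Plane := !₂[-b, a] with hvdef
  have hv : ‖v‖ = 1 := by
    have h1 : ‖v‖ ^ 2 = 1 := by
      rw [EuclideanSpace.norm_sq_eq, Fin.sum_univ_two, Real.norm_eq_abs, Real.norm_eq_abs, sq_abs, sq_abs]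
      simp only [hvdef]
      simp
      linarith
    rcases sq_eq_one_iff.1 h1 with h | h
    · exact h
    · have := norm_nonneg v
      linarith
  have hvv : (inner ℝ v v : ℝ) = 1 := by
    rw [real_inner_self_eq_norm_sq, hv]
    norm_num
  set A := pd f 0 p with hA
  set B := pd f 1 p with hB
  set D := fderiv ℝ (fderiv ℝ t) p with hD
  -- the images of the basis vectors
  have hl0 : ∀ s : ℝ, lin v s (EuclideanSpace.single 0 1) = a • u - (s * b) • v := by
    intro s
    rw [lin_apply]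
    ext i
    fin_cases i
    · simp [hudef, hvdef, PiLp.inner_apply]
      linear_combination (-1 : ℝ) * hab
    · simp [hudef, hvdef, PiLp.inner_apply]
      ring
  have hl1 : ∀ s : ℝ, lin v s (EuclideanSpace.single 1 1) = b • u + (s * a) • v := by
    intro s
    rw [lin_apply]
    ext i
    fin_cases i
    · simp [hudef, hvdef, PiLp.inner_apply]
      ring
    · simp [hudef, hvdef, PiLp.inner_apply]
      linear_combination (-1 : ℝ) * hab
  set Φ : ℝ → ℝ := fun s => trJ 0 0 0 A B (D (a • u - (s * b) • v) (a • u - (s * b) • v))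
    (D (a • u - (s * b) • v) (b • u + (s * a) • v)) (D (b • u + (s * a) • v) (b • u + (s * a) • v)) with hΦ
  have hΦc : Continuous Φ := by
    rw [hΦ]
    unfold trJ
    fun_prop
  have hΦ0 : Φ 0 < 0 := by
    have hG := gramJ_pos him 0 0 0
    rw [← hA, ← hB] at hG
    have hvne : v ≠ 0 := by
      intro h
      rw [h, norm_zero] at hv
      exact zero_ne_one hv
    have hw : a • B - b • A = fderiv ℝ f p v := by
      have h1 : v = (-b) • EuclideanSpace.single 0 1 + a • EuclideanSpace.single 1 1 := by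
        ext i
        fin_cases i <;> simp [hvdef]
      rw [h1, map_add, map_smul, map_smul, neg_smul, hA, hB]
      unfold pd
      abel
    have hQ : 0 < (inner ℝ (a • B - b • A) (a • B - b • A) : ℝ) := by
      apply real_inner_self_pos.2
      rw [hw]
      intro h
      exact hvne (him (h.trans (map_zero _).symm))
    have hQ2 : (inner ℝ (a • B - b • A) (a • B - b • A) : ℝ) =
        inner ℝ B B * a ^ 2 - 2 * inner ℝ A B * (a * b) + inner ℝ A A * b ^ 2 := by
      rw [inner_sub_left, inner_sub_right, inner_sub_right, real_inner_smul_left,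
        real_inner_smul_left, real_inner_smul_right, real_inner_smul_right, real_inner_smul_left,
        real_inner_smul_left, real_inner_smul_right, real_inner_smul_right, real_inner_comm A B]
      ring
    have hval : Φ 0 = (2 * gramJ 0 0 0 A B)⁻¹ * ((inner ℝ (a • B - b • A) (a • B - b • A) : ℝ) * D u u) := by
      rw [hQ2, hΦ]
      unfold trJ
      simp only [zero_mul, zero_smul, sub_zero, add_zero, map_smul, FunLike.coe_smul,
        Pi.smul_apply, smul_eq_mul, ne_eq, OfNat.ofNat_ne_zero, not_false_eq_true, zero_pow, mul_zero]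
      ring
    rw [hval]
    exact mul_neg_of_pos_of_neg (by positivity) (mul_neg_of_pos_of_neg hQ hneg)
  obtain ⟨s, hs0, hs1, hΦs⟩ : ∃ s : ℝ, 0 < s ∧ s ≤ 1 ∧ Φ s < 0 := by
    have h1 : ∀ᶠ s in 𝓝 (0 : ℝ), Φ s < 0 := hΦc.continuousAt.eventually (Iio_mem_nhds hΦ0)
    obtain ⟨δ, hδ, h2⟩ := Metric.eventually_nhds_iff.1 h1
    refine ⟨min (δ / 2) 1, lt_min (half_pos hδ) one_pos, min_le_right _ _, h2 ?_⟩
    rw [dist_zero_right, Real.norm_eq_abs, abs_of_pos (lt_min (half_pos hδ) one_pos)]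
    exact (min_le_left _ _).trans_lt (half_lt_self hδ)
  -- the radius
  obtain ⟨r, hr, hrW⟩ : ∃ r > 0, closedBall p r ⊆ W ∩ {y | |t y - t p| < η / 2} := by
    have h1 : {y | |t y - t p| < η / 2} ∈ 𝓝 p := by
      have h2 : Continuous fun y => |t y - t p| := (ht.continuous.sub continuous_const).abs
      apply (isOpen_lt h2 continuous_const).mem_nhds
      show |t p - t p| < η / 2
      rw [sub_self, abs_zero]
      exact half_pos hη
    exact Metric.nhds_basis_closedBall.mem_iff.1 (inter_mem (hW.mem_nhds hpW) h1)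
  have hps : ∀ x ∈ ball p r, psi p v r s x ∈ closedBall p r := by
    intro x hx
    rw [mem_closedBall, dist_eq_norm]
    rw [mem_ball, dist_eq_norm] at hx
    exact (psi_norm hv hs0 hs1 x).trans hx.le
  have hpsW : ∀ x ∈ W, psi p v r s x ∈ W := by
    intro x hx
    by_cases h : x ∈ ball p r
    · exact (hrW (hps x h)).1
    · rw [psi_off hr h]
      exact hx
  have hder : ∀ x, HasFDerivAt (fun x => t (psi p v r s x))
      ((fderiv ℝ t (psi p v r s x)).comp (fderiv ℝ (psi p v r s) x)) x := by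
    intro x
    exact ((ht.differentiable (by simp)) _).hasFDerivAt.comp x
      (((psi_contDiff p v r s).differentiable (by simp)) x).hasFDerivAt
  refine ⟨fun x => t (psi p v r s x), ht.comp (psi_contDiff p v r s), ?_, ?_, ?_, ?_, ?_, ?_⟩
  · intro x hx
    have h1 : x ∉ closedBall p r := fun h => hx (hrW h).1
    filter_upwards [isClosed_closedBall.isOpen_compl.mem_nhds h1] with z hz
    rw [psi_off hr fun h => hz (ball_subset_closedBall h)]
  · intro x
    by_cases h : x ∈ ball p r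
    · have h1 : |t (psi p v r s x) - t p| < η / 2 := (hrW (hps x h)).2
      have h2 : |t x - t p| < η / 2 := (hrW (ball_subset_closedBall h)).2
      have h3 : t (psi p v r s x) - t x = (t (psi p v r s x) - t p) - (t x - t p) := by ring
      show |t (psi p v r s x) - t x| ≤ η
      rw [h3]
      refine (abs_sub _ _).trans ?_
      linarith
    · show |t (psi p v r s x) - t x| ≤ η
      rw [psi_off hr h, sub_self, abs_zero]
      exact hη.le
  · intro x hx
    exact ⟨psi p v r s x, hpsW x hx, rfl⟩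
  · intro x hx h
    rw [(hder x).fderiv] at h
    have h1 : fderiv ℝ t (psi p v r s x) = 0 := by
      ext w
      obtain ⟨w', rfl⟩ := psi_surj (p := p) (r := r) hv hs0 hs1 x w
      have := congrArg (fun L : Plane →L[ℝ] ℝ => L w') h
      simpa using this
    exact psi_eq_base hv hs0 hs1 (hiso _ (hpsW x hx) h1)
  · rw [(hder p).fderiv, psi_base, h0]
    simp
  · show trJ 0 0 0 (pd f 0 p) (pd f 1 p) (t2 (fun x => t (psi p v r s x)) 0 0 p)
      (t2 (fun x => t (psi p v r s x)) 0 1 p) (t2 (fun x => t (psi p v r s x)) 1 1 p) < 0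
    rw [second ht p v hr, second ht p v hr, second ht p v hr, hl0, hl1]
    exact hΦs

end Pool.Agent.Lib_MP_752436_hg
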